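import Pool.Agent.Y160.T4.CntA

/-!
# Pairs of elements of an arbitrary set with prescribed classes modulo `q`-th powers
-/

set_option autoImplicit false
set_option linter.all false

namespace Pool.Agent.Y160.T4

open Polynomial Finset
open Pool.Agent.Y232.FT2 (R)

section iff

variable {k : Type} [Field k]

theorem good_iff {q : ℕ} {κ τ ω ρ γ : k} (hκ : κ ≠ 0) (hτ : τ ≠ 0) :
    (R q (κ * (ρ - γ)) 1 ∧ R q (τ * (ρ - γ) + κ) ω) ↔
      (R q (γ - ρ) (-κ⁻¹) ∧ R q (γ - (ρ + κ / τ)) (-ω / τ)) := by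
  have e1 : ∀ y : k, κ * (ρ - γ) = 1 * y ↔ γ - ρ = -κ⁻¹ * y := by
    intro y
    constructor
    · intro h
      rw [one_mul] at h
      rw [← h]
      field_simp
      ring
    · intro h
      have : ρ - γ = κ⁻¹ * y := by linear_combination -h
      rw [this, one_mul, mul_inv_cancel_left₀ hκ]
  have e2 : ∀ y : k, τ * (ρ - γ) + κ = ω * y ↔ γ - (ρ + κ / τ) = -ω / τ * y := by
    intro y
    constructor
    · intro h
      have h1 : ω * y = τ * (ρ - γ) + κ := h.symm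
      have h2 : -ω / τ * y = -(ω * y) / τ := by ring
      rw [h2, h1]
      field_simp
      ring
    · intro h
      have h1 : γ = ρ + κ / τ - ω / τ * y := by linear_combination h
      rw [h1]
      field_simp
      ring
  unfold R
  constructor
  · rintro ⟨⟨y, hy, h⟩, ⟨z, hz, h'⟩⟩
    exact ⟨⟨y, hy, (e1 _).1 h⟩, ⟨z, hz, (e2 _).1 h'⟩⟩
  · rintro ⟨⟨y, hy, h⟩, ⟨z, hz, h'⟩⟩
    exact ⟨⟨y, hy, (e1 _).2 h⟩, ⟨z, hz, (e2 _).2 h'⟩⟩

/-- The fibres of `ρ ↦ ρ + κ / σ(ρ)`. -/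
theorem fib_card [Fintype k] [DecidableEq k] {σ : k[X]} (hσ : σ ≠ 0) {D : ℕ} (hD : σ.natDegree ≤ D)
    {κ : k} (y : k) (T : Finset k) (hT : ∀ ρ ∈ T, σ.eval ρ ≠ 0) :
    (T.filter fun ρ => ρ + κ / σ.eval ρ = y).card ≤ D + 1 := by
  have hne : (X - C y) * σ + C κ ≠ 0 := by
    intro h0
    have h1 : (X - C y) * σ = C (-κ) := by rw [C_neg]; exact eq_neg_of_add_eq_zero_left h0
    have h2 := congrArg natDegree h1
    rw [natDegree_C, (monic_X_sub_C y).natDegree_mul' hσ, natDegree_X_sub_C] at h2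
    omega
  have h1 : (T.filter fun ρ => ρ + κ / σ.eval ρ = y) ⊆ ((X - C y) * σ + C κ).roots.toFinset := by
    intro ρ hρ
    obtain ⟨hρT, hρy⟩ := mem_filter.1 hρ
    rw [Multiset.mem_toFinset, mem_roots hne, IsRoot.def, eval_add, eval_mul, eval_sub, eval_X,
      eval_C, eval_C]
    have hs := hT ρ hρT
    rw [← hρy]
    field_simp
    ring
  refine (card_le_card h1).trans ((Multiset.toFinset_card_le _).trans ((card_roots' _).trans ?_))
  refine (natDegree_add_C).le.trans ?_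
  rw [(monic_X_sub_C y).natDegree_mul' hσ, natDegree_X_sub_C]
  omega

end iff

open Classical in
/-- The codegrees. -/
theorem codeg (p s : ℕ) (hp : p.Prime) : ∃ K : ℝ, 0 ≤ K ∧ ∀ (k : Type) [Field k] [Fintype k],
    p ^ (s + 1) ∣ Fintype.card k - 1 → ∀ (κ ω ρ ρ' τ τ' : k), κ ≠ 0 → ω ≠ 0 → τ ≠ 0 → τ' ≠ 0 →
    ρ ≠ ρ' → ρ ≠ ρ' + κ / τ' → ρ + κ / τ ≠ ρ' → ρ + κ / τ ≠ ρ' + κ / τ' →
    ∑ γ : k, ((if R (p ^ (s + 1)) (κ * (ρ - γ)) 1 ∧ R (p ^ (s + 1)) (τ * (ρ - γ) + κ) ω then (1 : ℝ)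
        else 0) - 1 / ((p ^ (s + 1) : ℕ) : ℝ) ^ 2) *
      ((if R (p ^ (s + 1)) (κ * (ρ' - γ)) 1 ∧ R (p ^ (s + 1)) (τ' * (ρ' - γ) + κ) ω then (1 : ℝ)
        else 0) - 1 / ((p ^ (s + 1) : ℕ) : ℝ) ^ 2) ≤ K * Real.sqrt (Fintype.card k) := by
  obtain ⟨K₂, hK₂0, hK₂⟩ := cntA p s 2 hp
  obtain ⟨K₄, hK₄0, hK₄⟩ := cntA p s 4 hp
  set q := p ^ (s + 1) with hq
  have hq0 : 0 < q := by rw [hq]; exact Nat.pow_pos hp.pos
  refine ⟨K₄ + 2 * K₂, by positivity, ?_⟩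
  intro k _ _ hdvd κ ω ρ ρ' τ τ' hκ hω hτ hτ' h1 h2 h3 h4
  set α : ℝ := 1 / (q : ℝ) ^ 2 with hα
  have hq1 : (1 : ℝ) ≤ (q : ℝ) := by exact_mod_cast hq0
  have hα0 : 0 ≤ α := by positivity
  have hα1 : α ≤ 1 := by
    rw [hα, div_le_one (by positivity)]
    exact one_le_pow₀ hq1
  set N : ℝ := (Fintype.card k : ℝ) with hN
  -- the degrees
  have hdeg : ∀ (ρ τ : k), τ ≠ 0 →
      |(∑ γ : k, (if R q (κ * (ρ - γ)) 1 ∧ R q (τ * (ρ - γ) + κ) ω then (1 : ℝ) else 0)) - α * N| ≤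
        K₂ * Real.sqrt N := by
    intro ρ τ hτ
    have h5 := hK₂ k hdvd ![ρ, ρ + κ / τ] ![-κ⁻¹, -ω / τ] (by
      have hne : ρ ≠ ρ + κ / τ := by
        intro h
        exact (div_ne_zero hκ hτ) (by linear_combination -h)
      intro i j hij
      fin_cases i <;> fin_cases j <;> first | rfl | exact absurd hij hne | exact absurd hij.symm hne)
      (by
        intro i
        fin_cases i
        · exact neg_ne_zero.2 (inv_ne_zero hκ)
        · exact div_ne_zero (neg_ne_zero.2 hω) hτ)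
    have h6 : (univ.filter fun x : k => ∀ i, R q (x - (![ρ, ρ + κ / τ] : Fin 2 → k) i)
        ((![-κ⁻¹, -ω / τ] : Fin 2 → k) i)) = univ.filter fun γ : k =>
          R q (κ * (ρ - γ)) 1 ∧ R q (τ * (ρ - γ) + κ) ω := by
      ext γ
      rw [mem_filter, mem_filter, good_iff hκ hτ, Fin.forall_fin_two]
      rfl
    rw [h6] at h5
    rw [sum_boole]
    have h7 : α * N = N / (q : ℝ) ^ 2 := by rw [hα]; ring
    rw [h7]
    exact h5
  have hco : |(∑ γ : k, (if R q (κ * (ρ - γ)) 1 ∧ R q (τ * (ρ - γ) + κ) ω then (1 : ℝ) else 0) *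
      (if R q (κ * (ρ' - γ)) 1 ∧ R q (τ' * (ρ' - γ) + κ) ω then (1 : ℝ) else 0)) - α ^ 2 * N| ≤
        K₄ * Real.sqrt N := by
    have hne : ρ ≠ ρ + κ / τ := by
      intro h
      exact (div_ne_zero hκ hτ) (by linear_combination -h)
    have hne' : ρ' ≠ ρ' + κ / τ' := by
      intro h
      exact (div_ne_zero hκ hτ') (by linear_combination -h)
    have h5 := hK₄ k hdvd ![ρ, ρ + κ / τ, ρ', ρ' + κ / τ'] ![-κ⁻¹, -ω / τ, -κ⁻¹, -ω / τ'] (by
      intro i j hij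
      fin_cases i <;> fin_cases j <;> first
        | rfl
        | exact absurd hij hne | exact absurd hij.symm hne
        | exact absurd hij hne' | exact absurd hij.symm hne'
        | exact absurd hij h1 | exact absurd hij.symm h1
        | exact absurd hij h2 | exact absurd hij.symm h2
        | exact absurd hij h3 | exact absurd hij.symm h3
        | exact absurd hij h4 | exact absurd hij.symm h4)
      (by
        intro i
        fin_cases i
        · exact neg_ne_zero.2 (inv_ne_zero hκ)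
        · exact div_ne_zero (neg_ne_zero.2 hω) hτ
        · exact neg_ne_zero.2 (inv_ne_zero hκ)
        · exact div_ne_zero (neg_ne_zero.2 hω) hτ')
    have h6 : (univ.filter fun x : k => ∀ i, R q (x - (![ρ, ρ + κ / τ, ρ', ρ' + κ / τ'] : Fin 4 → k) i)
        ((![-κ⁻¹, -ω / τ, -κ⁻¹, -ω / τ'] : Fin 4 → k) i)) = univ.filter fun γ : k =>
          (R q (κ * (ρ - γ)) 1 ∧ R q (τ * (ρ - γ) + κ) ω) ∧
          (R q (κ * (ρ' - γ)) 1 ∧ R q (τ' * (ρ' - γ) + κ) ω) := by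
      ext γ
      rw [mem_filter, mem_filter, good_iff hκ hτ, good_iff hκ hτ']
      refine and_congr_right fun _ => ?_
      constructor
      · intro h
        exact ⟨⟨h 0, h 1⟩, ⟨h 2, h 3⟩⟩
      · rintro ⟨⟨x0, x1⟩, ⟨x2, x3⟩⟩ i
        fin_cases i
        · exact x0
        · exact x1
        · exact x2
        · exact x3
    rw [h6] at h5
    have h8 : ∀ γ : k, (if R q (κ * (ρ - γ)) 1 ∧ R q (τ * (ρ - γ) + κ) ω then (1 : ℝ) else 0) *
      (if R q (κ * (ρ' - γ)) 1 ∧ R q (τ' * (ρ' - γ) + κ) ω then (1 : ℝ) else 0) =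
      if ((R q (κ * (ρ - γ)) 1 ∧ R q (τ * (ρ - γ) + κ) ω) ∧
          (R q (κ * (ρ' - γ)) 1 ∧ R q (τ' * (ρ' - γ) + κ) ω)) then (1 : ℝ) else 0 := by
      intro γ
      rw [ite_and (R q (κ * (ρ - γ)) 1 ∧ R q (τ * (ρ - γ) + κ) ω), ite_mul, one_mul, zero_mul]
    simp_rw [h8]
    rw [sum_boole]
    have h7 : α ^ 2 * N = N / (q : ℝ) ^ 4 := by rw [hα]; field_simp
    rw [h7]
    exact h5
  have hd1 := hdeg ρ τ hτ
  have hd2 := hdeg ρ' τ' hτ'
  have hexp : ∀ (g g' : k → ℝ), ∑ γ : k, (g γ - α) * (g' γ - α) =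
      ((∑ γ : k, g γ * g' γ) - α ^ 2 * N) - α * ((∑ γ : k, g γ) - α * N) -
        α * ((∑ γ : k, g' γ) - α * N) := by
    intro g g'
    have e1 : ∀ γ : k, (g γ - α) * (g' γ - α) = g γ * g' γ - α * g γ - α * g' γ + α ^ 2 := by
      intro γ; ring
    simp_rw [e1]
    rw [sum_add_distrib, sum_sub_distrib, sum_sub_distrib, ← mul_sum, ← mul_sum, sum_const,
      card_univ, nsmul_eq_mul]
    ring
  rw [hexp]
  have a1 := (abs_le.1 hco).2
  have a2 := (abs_le.1 hd1).1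
  have a3 := (abs_le.1 hd2).1
  have hs : 0 ≤ K₂ * Real.sqrt N := by positivity
  have a4 : -(K₂ * Real.sqrt N) ≤ α * ((∑ γ : k,
      (if R q (κ * (ρ - γ)) 1 ∧ R q (τ * (ρ - γ) + κ) ω then (1 : ℝ) else 0)) - α * N) := by
    nlinarith
  have a5 : -(K₂ * Real.sqrt N) ≤ α * ((∑ γ : k,
      (if R q (κ * (ρ' - γ)) 1 ∧ R q (τ' * (ρ' - γ) + κ) ω then (1 : ℝ) else 0)) - α * N) := by
    nlinarith
  linarith

end Pool.Agent.Y160.T4
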