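import Pool.Agent.Y160.T4.Bil

/-!
# Pairs of elements of an arbitrary set with prescribed classes modulo `q`-th powers: conclusion
-/

set_option autoImplicit false
set_option linter.all false

namespace Pool.Agent.Y160.T4

open Polynomial Finset
open Pool.Agent.Y232.FT2 (R)

open Classical in
/-- The pairs of elements of a set. -/
theorem bil (p s D : ℕ) (hp : p.Prime) {ε : ℝ} (hε : 0 < ε) : ∃ N₀ : ℕ, ∀ (k : Type) [Field k]
    [Fintype k], p ^ (s + 1) ∣ Fintype.card k - 1 → N₀ ≤ Fintype.card k →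
    ∀ (σ : k[X]) (κ ω : k) (T : Finset k), σ ≠ 0 → σ.natDegree ≤ D → κ ≠ 0 → ω ≠ 0 →
    1 / ((p ^ (s + 1) : ℕ) : ℝ) ^ 2 * (T.card : ℝ) ^ 2 - ε * (Fintype.card k : ℝ) ^ 2 ≤
      (((T ×ˢ T).filter fun x => R (p ^ (s + 1)) (κ * (x.1 - x.2)) 1 ∧
        R (p ^ (s + 1)) (σ.eval x.1 * (x.1 - x.2) + κ) ω).card : ℝ) := by
  obtain ⟨K, hK0, hK⟩ := codeg p s hp
  refine ⟨Nat.ceil ((4 * (K + 2 * D + 4) / ε ^ 2) ^ 2) + Nat.ceil (2 * D / ε) + 1, ?_⟩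
  intro k _ _ hdvd hN₀ σ κ ω T hσ hD hκ hω
  set q := p ^ (s + 1) with hq
  have hq0 : 0 < q := by rw [hq]; exact Nat.pow_pos hp.pos
  have hq1 : (1 : ℝ) ≤ (q : ℝ) := by exact_mod_cast hq0
  set α : ℝ := 1 / (q : ℝ) ^ 2 with hα
  have hα0 : 0 ≤ α := by positivity
  have hα1 : α ≤ 1 := by
    rw [hα, div_le_one (by positivity)]
    exact one_le_pow₀ hq1
  set N : ℝ := (Fintype.card k : ℝ) with hN
  have hN1 : (1 : ℝ) ≤ N := by rw [hN]; exact_mod_cast Fintype.card_pos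
  set g : k → k → ℝ := fun ρ γ => if R q (κ * (ρ - γ)) 1 ∧ R q (σ.eval ρ * (ρ - γ) + κ) ω then
    (1 : ℝ) else 0 with hg
  have hg01 : ∀ ρ γ, 0 ≤ g ρ γ ∧ g ρ γ ≤ 1 := by
    intro ρ γ
    simp only [hg]
    split_ifs <;> norm_num
  set T₀ := T.filter fun ρ => σ.eval ρ ≠ 0 with hT₀
  have hT₀N : (T₀.card : ℝ) ≤ N := by
    rw [hN]; exact_mod_cast card_le_univ T₀
  have hTN : (T.card : ℝ) ≤ N := by
    rw [hN]; exact_mod_cast card_le_univ T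
  have hφ : ∀ ρ ∈ T₀, σ.eval ρ ≠ 0 := fun ρ hρ => (mem_filter.1 hρ).2
  set exc : k → k → Prop := fun ρ ρ' => ρ' = ρ ∨ ρ' + κ / σ.eval ρ' = ρ ∨ ρ' = ρ + κ / σ.eval ρ ∨
    ρ' + κ / σ.eval ρ' = ρ + κ / σ.eval ρ with hexc
  -- the exceptional pairs
  have hexcard : ∀ ρ : k, ((T₀.filter fun ρ' => exc ρ ρ').card : ℝ) ≤ 2 * D + 4 := by
    intro ρ
    have h1 : (T₀.filter fun ρ' => exc ρ ρ') ⊆
        (({ρ} : Finset k) ∪ T₀.filter fun ρ' => ρ' + κ / σ.eval ρ' = ρ) ∪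
        (({ρ + κ / σ.eval ρ} : Finset k) ∪
          T₀.filter fun ρ' => ρ' + κ / σ.eval ρ' = ρ + κ / σ.eval ρ) := by
      intro ρ' hρ'
      obtain ⟨h2, h3⟩ := mem_filter.1 hρ'
      rcases h3 with h | h | h | h
      · exact mem_union_left _ (mem_union_left _ (mem_singleton.2 h))
      · exact mem_union_left _ (mem_union_right _ (mem_filter.2 ⟨h2, h⟩))
      · exact mem_union_right _ (mem_union_left _ (mem_singleton.2 h))
      · exact mem_union_right _ (mem_union_right _ (mem_filter.2 ⟨h2, h⟩))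
    have h2 := card_le_card h1
    have h3 := card_union_le (({ρ} : Finset k) ∪ T₀.filter fun ρ' => ρ' + κ / σ.eval ρ' = ρ)
      (({ρ + κ / σ.eval ρ} : Finset k) ∪
          T₀.filter fun ρ' => ρ' + κ / σ.eval ρ' = ρ + κ / σ.eval ρ)
    have h4 := card_union_le ({ρ} : Finset k) (T₀.filter fun ρ' => ρ' + κ / σ.eval ρ' = ρ)
    have h5 := card_union_le ({ρ + κ / σ.eval ρ} : Finset k)
      (T₀.filter fun ρ' => ρ' + κ / σ.eval ρ' = ρ + κ / σ.eval ρ)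
    have h6 := fib_card hσ hD (κ := κ) ρ T₀ hφ
    have h7 := fib_card hσ hD (κ := κ) (ρ + κ / σ.eval ρ) T₀ hφ
    rw [card_singleton] at h4 h5
    have h8 : (T₀.filter fun ρ' => exc ρ ρ').card ≤ 2 * D + 4 := by omega
    exact_mod_cast h8
  set f : k → ℝ := fun γ => ∑ ρ ∈ T₀, (g ρ γ - α) with hf
  -- the second moment
  have h1 : ∑ γ : k, f γ ^ 2 ≤ N ^ 2 * (K * Real.sqrt N) + (2 * D + 4) * N ^ 2 := by
    have e1 : ∑ γ : k, f γ ^ 2 = ∑ ρ ∈ T₀, ∑ ρ' ∈ T₀, ∑ γ : k, (g ρ γ - α) * (g ρ' γ - α) := by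
      have : ∀ γ : k, f γ ^ 2 = ∑ ρ ∈ T₀, ∑ ρ' ∈ T₀, (g ρ γ - α) * (g ρ' γ - α) := by
        intro γ
        rw [hf, sq, sum_mul_sum]
      simp_rw [this]
      rw [sum_comm]
      refine sum_congr rfl fun ρ _ => ?_
      rw [sum_comm]
    rw [e1]
    have e2 : ∀ ρ ∈ T₀, ∀ ρ' ∈ T₀, ∑ γ : k, (g ρ γ - α) * (g ρ' γ - α) ≤
        K * Real.sqrt N + (if exc ρ ρ' then N else 0) := by
      intro ρ hρ ρ' hρ'
      by_cases hx : exc ρ ρ'
      · rw [if_pos hx]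
        have e3 : ∑ γ : k, (g ρ γ - α) * (g ρ' γ - α) ≤ ∑ γ : k, (1 : ℝ) := by
          refine sum_le_sum fun γ _ => ?_
          obtain ⟨a1, a2⟩ := hg01 ρ γ
          obtain ⟨b1, b2⟩ := hg01 ρ' γ
          nlinarith
        have e4 : ∑ γ : k, (1 : ℝ) = N := by simp [hN]
        have e5 : 0 ≤ K * Real.sqrt N := by positivity
        linarith
      · rw [if_neg hx, add_zero]
        have hx' : ¬ (ρ' = ρ ∨ ρ' + κ / σ.eval ρ' = ρ ∨ ρ' = ρ + κ / σ.eval ρ ∨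
          ρ' + κ / σ.eval ρ' = ρ + κ / σ.eval ρ) := hx
        push Not at hx'
        obtain ⟨x1, x2, x3, x4⟩ := hx'
        exact hK k hdvd κ ω ρ ρ' (σ.eval ρ) (σ.eval ρ') hκ hω (hφ ρ hρ) (hφ ρ' hρ') x1.symm
          x2.symm x3.symm x4.symm
    refine (sum_le_sum fun ρ hρ => sum_le_sum fun ρ' hρ' => e2 ρ hρ ρ' hρ').trans ?_
    have e3 : ∀ ρ ∈ T₀, ∑ ρ' ∈ T₀, (K * Real.sqrt N + (if exc ρ ρ' then N else 0)) ≤
        N * (K * Real.sqrt N) + (2 * D + 4) * N := by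
      intro ρ _
      rw [sum_add_distrib, sum_const, nsmul_eq_mul, ← sum_filter, sum_const, nsmul_eq_mul]
      have e5 : 0 ≤ K * Real.sqrt N := by positivity
      exact add_le_add (mul_le_mul_of_nonneg_right hT₀N e5)
        (mul_le_mul_of_nonneg_right (hexcard ρ) (by linarith))
    refine (sum_le_sum e3).trans ?_
    rw [sum_const, nsmul_eq_mul]
    have e6 : 0 ≤ N * (K * Real.sqrt N) + (2 * D + 4) * N := by positivity
    calc (T₀.card : ℝ) * (N * (K * Real.sqrt N) + (2 * D + 4) * N) ≤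
        N * (N * (K * Real.sqrt N) + (2 * D + 4) * N) := mul_le_mul_of_nonneg_right hT₀N e6
      _ = _ := by ring
  -- the sum over `T`
  set S := ∑ γ ∈ T, f γ with hS
  have h2 : S ^ 2 ≤ N * (N ^ 2 * (K * Real.sqrt N) + (2 * D + 4) * N ^ 2) := by
    have e1 : S ^ 2 ≤ T.card * ∑ γ ∈ T, f γ ^ 2 := sq_sum_le_card_mul_sum_sq
    have e2 : ∑ γ ∈ T, f γ ^ 2 ≤ ∑ γ : k, f γ ^ 2 :=
      sum_le_sum_of_subset_of_nonneg (subset_univ _) fun γ _ _ => sq_nonneg _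
    have e3 : 0 ≤ ∑ γ ∈ T, f γ ^ 2 := sum_nonneg fun γ _ => sq_nonneg _
    calc S ^ 2 ≤ T.card * ∑ γ ∈ T, f γ ^ 2 := e1
      _ ≤ N * ∑ γ ∈ T, f γ ^ 2 := mul_le_mul_of_nonneg_right hTN e3
      _ ≤ _ := mul_le_mul_of_nonneg_left (e2.trans h1) (by linarith)
  -- numbers
  have hN₀' : (4 * (K + 2 * D + 4) / ε ^ 2) ^ 2 ≤ N ∧ 2 * D / ε ≤ N := by
    have a1 : (4 * (K + 2 * D + 4) / ε ^ 2) ^ 2 ≤
      (Nat.ceil ((4 * (K + 2 * D + 4) / ε ^ 2) ^ 2) : ℝ) := Nat.le_ceil _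
    have a2 : 2 * D / ε ≤ (Nat.ceil (2 * D / ε) : ℝ) := Nat.le_ceil _
    have a3 : ((Nat.ceil ((4 * (K + 2 * D + 4) / ε ^ 2) ^ 2) + Nat.ceil (2 * D / ε) + 1 : ℕ) : ℝ) ≤
      (Fintype.card k : ℝ) := by exact_mod_cast hN₀
    push_cast at a3
    have a4 : (0 : ℝ) ≤ (Nat.ceil ((4 * (K + 2 * D + 4) / ε ^ 2) ^ 2) : ℝ) := Nat.cast_nonneg _
    have a5 : (0 : ℝ) ≤ (Nat.ceil (2 * D / ε) : ℝ) := Nat.cast_nonneg _
    constructor <;> linarith
  have hsq : Real.sqrt N ^ 2 = N := Real.sq_sqrt (by linarith)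
  have hs0 : 0 < Real.sqrt N := Real.sqrt_pos.2 (by linarith)
  have hs1 : 1 ≤ Real.sqrt N := Real.one_le_sqrt.2 hN1
  have h3 : 4 * (K + 2 * D + 4) ≤ ε ^ 2 * Real.sqrt N := by
    have a1 : 4 * (K + 2 * D + 4) / ε ^ 2 ≤ Real.sqrt N := Real.le_sqrt_of_sq_le hN₀'.1
    rw [div_le_iff₀ (by positivity)] at a1
    linarith
  have h4 : S ^ 2 ≤ (ε / 2 * N ^ 2) ^ 2 := by
    refine h2.trans ?_
    have b1 : N * (N ^ 2 * (K * Real.sqrt N) + (2 * D + 4) * N ^ 2) ≤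
        N ^ 3 * ((K + 2 * D + 4) * Real.sqrt N) := by
      have b2 : (0 : ℝ) ≤ (2 * D + 4) * N ^ 3 := by positivity
      nlinarith
    refine b1.trans ?_
    have b3 : (K + 2 * D + 4) * Real.sqrt N ≤ ε ^ 2 / 4 * N := by
      have b4 := mul_le_mul_of_nonneg_right h3 hs0.le
      rw [mul_assoc (ε ^ 2), ← sq, hsq] at b4
      linarith
    calc N ^ 3 * ((K + 2 * D + 4) * Real.sqrt N) ≤ N ^ 3 * (ε ^ 2 / 4 * N) :=
          mul_le_mul_of_nonneg_left b3 (by positivity)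
      _ = (ε / 2 * N ^ 2) ^ 2 := by ring
  have h5 : -(ε / 2 * N ^ 2) ≤ S := (abs_le.1 (abs_le_of_sq_le_sq h4 (by positivity))).1
  -- the number of the pairs
  have h6 : (((T ×ˢ T).filter fun x => R q (κ * (x.1 - x.2)) 1 ∧
        R q (σ.eval x.1 * (x.1 - x.2) + κ) ω).card : ℝ) = ∑ ρ ∈ T, ∑ γ ∈ T, g ρ γ := by
    rw [← sum_product', sum_boole]
  rw [h6]
  have h7 : ∑ ρ ∈ T₀, ∑ γ ∈ T, g ρ γ ≤ ∑ ρ ∈ T, ∑ γ ∈ T, g ρ γ :=
    sum_le_sum_of_subset_of_nonneg (filter_subset _ _) fun ρ _ _ => sum_nonneg fun γ _ => (hg01 ρ γ).1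
  have h8 : S = ∑ ρ ∈ T₀, ∑ γ ∈ T, g ρ γ - α * (T₀.card * T.card) := by
    rw [hS]
    simp only [hf]
    rw [sum_comm]
    have : ∀ ρ ∈ T₀, ∑ γ ∈ T, (g ρ γ - α) = ∑ γ ∈ T, g ρ γ - T.card * α := by
      intro ρ _
      rw [sum_sub_distrib, sum_const, nsmul_eq_mul]
    rw [sum_congr rfl this, sum_sub_distrib, sum_const, nsmul_eq_mul]
    ring
  have h9 : (T.card : ℝ) ≤ T₀.card + D := by
    have c1 : T.card ≤ T₀.card + σ.roots.toFinset.card := by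
      rw [← card_filter_add_card_filter_not (s := T) (fun ρ => σ.eval ρ ≠ 0)]
      refine Nat.add_le_add_left (card_le_card ?_) _
      intro ρ hρ
      have := (mem_filter.1 hρ).2
      rw [Multiset.mem_toFinset, mem_roots hσ]
      exact not_not.1 this
    have c2 : σ.roots.toFinset.card ≤ D := (Multiset.toFinset_card_le _).trans
      ((card_roots' _).trans hD)
    exact_mod_cast c1.trans (Nat.add_le_add_left c2 _)
  have h10 : α * (T.card : ℝ) ^ 2 - D * N ≤ α * (T₀.card * T.card) := by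
    have hT0 : (0 : ℝ) ≤ T.card := Nat.cast_nonneg _
    have hD0 : (0 : ℝ) ≤ D := Nat.cast_nonneg _
    have d1 : α * ((T.card : ℝ) - D) * T.card ≤ α * T₀.card * T.card := by
      refine mul_le_mul_of_nonneg_right (mul_le_mul_of_nonneg_left ?_ hα0) hT0
      linarith
    have d2 : α * D * T.card ≤ D * N := by
      calc α * D * T.card ≤ 1 * D * N := by
            refine mul_le_mul (mul_le_mul_of_nonneg_right hα1 hD0) hTN hT0 (by positivity)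
        _ = D * N := by ring
    nlinarith
  have h11 : D * N ≤ ε / 2 * N ^ 2 := by
    have d1 := hN₀'.2
    rw [div_le_iff₀ hε] at d1
    nlinarith
  linarith

end Pool.Agent.Y160.T4
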