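import Mathlib

/-!
# Classes modulo `p`-th powers
-/

set_option autoImplicit false
set_option linter.all false

open Polynomial

namespace Pool.Agent.Y160.T4

section grp

variable {V : Type} [CommGroup V] {p : ℕ}

theorem one_of_cop {x : V} (hx : x ^ p = 1) {n : ℕ} (h : p.Coprime n) (h1 : x ^ n = 1) : x = 1 := by
  have h2 : orderOf x ∣ p := orderOf_dvd_of_pow_eq_one hx
  have h3 : orderOf x ∣ n := orderOf_dvd_of_pow_eq_one h1
  have h4 : orderOf x ∣ 1 := by
    have := Nat.dvd_gcd h2 h3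
    rwa [h.gcd_eq_one] at this
  exact orderOf_eq_one_iff.1 (Nat.dvd_one.1 h4)

theorem modEq_of (hp : p.Prime) {x : V} (hx : x ^ p = 1) (h1 : x ≠ 1) {a b : ℕ}
    (h : x ^ a = x ^ b) : a ≡ b [MOD p] := by
  haveI : Fact p.Prime := ⟨hp⟩
  have h2 := orderOf_eq_prime hx h1
  rw [← h2]
  exact pow_eq_pow_iff_modEq.1 h

/-- The computation for the divisors of `g`. -/
theorem calc_redei (hp : p.Prime) (hV : ∀ x : V, x ^ p = 1) {c r : V} {M d e₁ e₂ : ℕ}
    (hM : p.Coprime ((d + 1) * M)) (h1 : c ^ M * r ^ e₂ = r ^ e₁) (h2 : c ^ (d * M) * r ^ e₁ = r ^ e₂)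
    (hr : r ≠ 1) : e₁ ≡ e₂ [MOD p] := by
  have h3 : c ^ ((d + 1) * M) = 1 := by
    have h4 : c ^ ((d + 1) * M) * (r ^ e₂ * r ^ e₁) = 1 * (r ^ e₂ * r ^ e₁) := by
      rw [one_mul]
      calc c ^ ((d + 1) * M) * (r ^ e₂ * r ^ e₁) = (c ^ M * r ^ e₂) * (c ^ (d * M) * r ^ e₁) := by
            rw [show (d + 1) * M = M + d * M by ring, pow_add]
            simp only [mul_comm, mul_left_comm, mul_assoc]
        _ = r ^ e₂ * r ^ e₁ := by rw [h1, h2, mul_comm]
    exact mul_right_cancel h4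
  have h4 : c = 1 := one_of_cop (hV c) hM h3
  rw [h4, one_pow, one_mul] at h1
  exact (modEq_of hp (hV r) hr h1).symm

/-- The computation for the residues. -/
theorem calc_step (hp : p.Prime) (hV : ∀ x : V, x ^ p = 1) {c t t₂ t' t₂' : V} {M d e₁ e₂ : ℕ}
    (hM : p.Coprime ((d + 1) * M)) (h1 : c ^ M * (t ^ e₁ * t₂ ^ e₂) = 1)
    (h2 : c ^ (d * M) * (t' ^ e₁ * t₂' ^ e₂) = 1) (h3 : t * t₂ = 1) (h4 : t * t' = 1)
    (h5 : t₂ * t₂' = 1) (ht : t ≠ 1) : e₁ ≡ e₂ [MOD p] := by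
  have h6 : c ^ ((d + 1) * M) = 1 := by
    calc c ^ ((d + 1) * M) = c ^ ((d + 1) * M) * ((t * t') ^ e₁ * (t₂ * t₂') ^ e₂) := by
          rw [h4, h5, one_pow, one_pow, mul_one, mul_one]
      _ = (c ^ M * (t ^ e₁ * t₂ ^ e₂)) * (c ^ (d * M) * (t' ^ e₁ * t₂' ^ e₂)) := by
          rw [show (d + 1) * M = M + d * M by ring, pow_add, mul_pow, mul_pow]
          simp only [mul_comm, mul_left_comm, mul_assoc]
      _ = 1 := by rw [h1, h2, mul_one]
  have h7 : c = 1 := one_of_cop (hV c) hM h6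
  rw [h7, one_pow, one_mul] at h1
  have h8 : t ^ e₁ = t ^ e₂ := by
    calc t ^ e₁ = t ^ e₁ * (t * t₂) ^ e₂ := by rw [h3, one_pow, mul_one]
      _ = (t ^ e₁ * t₂ ^ e₂) * t ^ e₂ := by rw [mul_pow]; simp only [mul_comm, mul_left_comm, mul_assoc]
      _ = t ^ e₂ := by rw [h1, one_mul]
  exact modEq_of hp (hV t) ht h8

end grp

section cls

variable {E : Type} [Field E]

/-- The group of the nonzero elements modulo `p`-th powers. -/
abbrev VG (E : Type) [Field E] (p : ℕ) : Type := Eˣ ⧸ (powMonoidHom p : Eˣ →* Eˣ).range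

noncomputable instance vgGroup (p : ℕ) : CommGroup (VG E p) := QuotientGroup.Quotient.commGroup _

open Classical in
/-- The class of an element. -/
noncomputable def cl (p : ℕ) (x : E) : VG E p :=
  if h : x = 0 then 1 else QuotientGroup.mk (Units.mk0 x h)

theorem cl_of (p : ℕ) {x : E} (h : x ≠ 0) : cl p x = QuotientGroup.mk (Units.mk0 x h) := dif_neg h

theorem cl_mul (p : ℕ) {x y : E} (hx : x ≠ 0) (hy : y ≠ 0) : cl p (x * y) = cl p x * cl p y := by
  rw [cl_of p hx, cl_of p hy, cl_of p (mul_ne_zero hx hy), ← QuotientGroup.mk_mul]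
  congr 1
  exact Units.mk0_mul _ _ _

theorem cl_one (p : ℕ) : cl p (1 : E) = 1 := by
  have := cl_mul p (one_ne_zero (α := E)) one_ne_zero
  rw [mul_one] at this
  exact (mul_eq_left (M := VG E p)).1 this.symm

theorem cl_pow (p : ℕ) {x : E} (hx : x ≠ 0) (n : ℕ) : cl p (x ^ n) = cl p x ^ n := by
  induction n with
  | zero => rw [pow_zero, pow_zero, cl_one]
  | succ n ih => rw [pow_succ, pow_succ, cl_mul p (pow_ne_zero _ hx) hx, ih]

theorem VG_pow (p : ℕ) (x : VG E p) : x ^ p = 1 := by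
  induction x using QuotientGroup.induction_on with
  | H z =>
    rw [← QuotientGroup.mk_pow, QuotientGroup.eq_one_iff]
    exact ⟨z, rfl⟩

theorem cl_eq_one (p : ℕ) {x : E} (hx : x ≠ 0) : cl p x = 1 ↔ ∃ y : E, y ^ p = x := by
  rw [cl_of p hx, QuotientGroup.eq_one_iff]
  constructor
  · rintro ⟨z, hz⟩
    refine ⟨z, ?_⟩
    have := congrArg Units.val hz
    simpa using this
  · rintro ⟨y, hy⟩
    rcases Nat.eq_zero_or_pos p with h0 | hp
    · subst h0
      rw [pow_zero] at hy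
      exact ⟨1, Units.ext (by simpa using hy)⟩
    · have hy0 : y ≠ 0 := by
        rintro rfl
        rw [zero_pow hp.ne'] at hy
        exact hx hy.symm
      exact ⟨Units.mk0 y hy0, Units.ext (by simpa using hy)⟩

theorem cl_ppow (p : ℕ) {x : E} (hx : x ≠ 0) : cl p (x ^ p) = 1 := by
  rw [cl_pow p hx, VG_pow]

end cls

end Pool.Agent.Y160.T4
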