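import Pool.Agent.Y160.T2.CntN

/-!
# The number of elements with prescribed classes modulo `q`-th powers: asymptotics
-/

set_option autoImplicit false
set_option linter.all false

namespace Pool.Agent.Y160.T4

open Polynomial Finset
open Pool.Agent.H435R3.Weil
open Pool.Agent.Y823.FT2
open Pool.Agent.Y232.FT2 (R)

/-- The sums over nontrivial characters. -/
theorem char_bd (p s n : ℕ) (hp : p.Prime) : ∃ K : ℝ, 0 ≤ K ∧ ∀ (k : Type) [Field k] [Fintype k],
    p ^ (s + 1) ∣ Fintype.card k - 1 → ∀ χ : MulChar k ℂ, orderOf χ = p ^ (s + 1) →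
    ∀ (a c : Fin n → k), Function.Injective a → (∀ i, c i ≠ 0) → ∀ e : Fin n → ℕ,
    (∀ i, e i < p ^ (s + 1)) → (∃ i, e i ≠ 0) →
    ‖∑ x : k, χ ((fe a c e).eval x)‖ ≤ K * Real.sqrt (Fintype.card k) := by
  classical
  have hw := fun b : ℕ => wele (p ^ (b + 1)) (n * p ^ (s + 1)) (by
    calc 2 ≤ p := hp.two_le
      _ ≤ p ^ (b + 1) := Nat.le_self_pow (Nat.succ_ne_zero b) p)
  choose K hK0 hK using hw
  refine ⟨∑ b ∈ range (s + 1), K b, Finset.sum_nonneg fun b _ => hK0 b, ?_⟩
  intro k _ _ hdvd χ hχ a c ha hc e he hne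
  -- the minimal valuation
  obtain ⟨i, hi, hmin⟩ := Finset.exists_min_image (univ.filter fun i => e i ≠ 0)
    (fun i => padicValNat p (e i)) (by
      obtain ⟨i, hi⟩ := hne
      exact ⟨i, mem_filter.2 ⟨mem_univ _, hi⟩⟩)
  have hi0 : e i ≠ 0 := (mem_filter.1 hi).2
  haveI : Fact p.Prime := ⟨hp⟩
  set b := padicValNat p (e i) with hb
  have hdv : ∀ j, p ^ b ∣ e j := by
    intro j
    by_cases hj : e j = 0
    · rw [hj]; exact dvd_zero _
    · exact (padicValNat_dvd_iff_le hj).2 (hmin j (mem_filter.2 ⟨mem_univ _, hj⟩))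
  have hpb : 0 < p ^ b := Nat.pow_pos hp.pos
  have hbs : b < s + 1 := by
    have h1 : p ^ b ≤ e i := Nat.le_of_dvd (Nat.pos_of_ne_zero hi0) (hdv i)
    exact (Nat.pow_lt_pow_iff_right hp.one_lt).1 (h1.trans_lt (he i))
  obtain ⟨e', he'⟩ : ∃ e' : Fin n → ℕ, ∀ j, e j = e' j * p ^ b :=
    ⟨fun j => e j / p ^ b, fun j => (Nat.div_mul_cancel (hdv j)).symm⟩
  have hnd : ¬ p ∣ e' i := by
    rintro ⟨z, hz⟩
    have h1 : p ^ (b + 1) ∣ e i := ⟨z, by rw [he' i, hz]; ring⟩
    have h2 := (padicValNat_dvd_iff_le hi0).1 h1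
    omega
  have hcop : (e' i).Coprime (p ^ (s - b + 1)) :=
    Nat.Coprime.pow_right _ ((hp.coprime_iff_not_dvd.2 hnd).symm)
  have hsb : p ^ (s - b + 1) * p ^ b = p ^ (s + 1) := by
    rw [← pow_add]
    congr 1
    omega
  have hev : ∀ x : k, χ ((fe a c e).eval x) = (χ ^ (p ^ b)) ((fe a c e').eval x) := by
    intro x
    rw [MulChar.pow_apply' χ hpb.ne', ← map_pow]
    congr 1
    rw [fe_eval, fe_eval, ← Finset.prod_pow]
    refine Finset.prod_congr rfl fun j _ => ?_
    rw [he' j, pow_mul]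
  have h1 := hK (s - b) k ((Dvd.intro _ hsb).trans hdvd) (χ ^ (p ^ b)) (by
    intro h0
    have h2 := orderOf_dvd_of_pow_eq_one h0
    rw [hχ] at h2
    have h3 := (Nat.pow_dvd_pow_iff_le_right hp.one_lt).1 h2
    omega) (by
    rw [← pow_mul, mul_comm, hsb, ← hχ, pow_orderOf_eq_one]) (fe a c e') (by
    refine fe_deg a c e' fun j => ?_
    have := he j
    rw [he' j] at this
    exact (Nat.le_mul_of_pos_right _ hpb).trans_lt this) (fe_ne a c hc e') (by
    refine ⟨a i, ?_⟩
    rw [fe_rm a c ha hc]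
    exact hcop)
  simp_rw [hev]
  refine h1.trans (mul_le_mul_of_nonneg_right ?_ (Real.sqrt_nonneg _))
  exact Finset.single_le_sum (f := K) (fun b _ => hK0 b) (mem_range.2 (by omega))

open Classical in
/-- The number of the elements with prescribed classes. -/
theorem cntA (p s n : ℕ) (hp : p.Prime) : ∃ K : ℝ, 0 ≤ K ∧ ∀ (k : Type) [Field k] [Fintype k],
    p ^ (s + 1) ∣ Fintype.card k - 1 → ∀ (a c : Fin n → k), Function.Injective a →
    (∀ i, c i ≠ 0) →
    |((univ.filter fun x : k => ∀ i, R (p ^ (s + 1)) (x - a i) (c i)).card : ℝ) -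
      Fintype.card k / ((p ^ (s + 1) : ℕ) : ℝ) ^ n| ≤ K * Real.sqrt (Fintype.card k) := by
  obtain ⟨K, hK0, hK⟩ := char_bd p s n hp
  set q := p ^ (s + 1) with hq
  have hq0 : 0 < q := by rw [hq]; exact Nat.pow_pos hp.pos
  refine ⟨K + n, by positivity, ?_⟩
  intro k _ _ hdvd a c ha hc
  obtain ⟨χ, hχ⟩ := MulChar.exists_mulChar_orderOf k hdvd
    (Complex.isPrimitiveRoot_exp q hq0.ne')
  have hχq : χ ^ q = 1 := by rw [← hχ]; exact pow_orderOf_eq_one χ
  set T := univ.filter fun x : k => ∀ i, R q (x - a i) (c i) with hT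
  have hqR : (0 : ℝ) < q := by exact_mod_cast hq0
  -- the values of the product
  have hgood : ∀ x ∈ T, ∏ i, ∑ e ∈ range q, (χ ((c i)⁻¹ * (x - a i))) ^ e = (q : ℂ) ^ n := by
    intro x hx
    have hx' := (mem_filter.1 hx).2
    have h1 : ∀ i, ∑ e ∈ range q, (χ ((c i)⁻¹ * (x - a i))) ^ e = (q : ℂ) := by
      intro i
      obtain ⟨y, hy0, hy⟩ := hx' i
      have h2 : χ ((c i)⁻¹ * (x - a i)) = 1 := by
        rw [hy, inv_mul_cancel_left₀ (hc i), map_pow, ← MulChar.pow_apply' χ hq0.ne', hχq,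
          MulChar.one_apply]
        exact isUnit_iff_ne_zero.2 hy0
      simp [h2]
    rw [Finset.prod_congr rfl fun i _ => h1 i]
    simp
  have hbad : ∀ x : k, x ∉ T → (∀ i, x ≠ a i) →
      ∏ i, ∑ e ∈ range q, (χ ((c i)⁻¹ * (x - a i))) ^ e = 0 := by
    intro x hxT hx
    obtain ⟨i, hi⟩ : ∃ i, ¬ R q (x - a i) (c i) := by
      by_contra hcon
      push Not at hcon
      exact hxT (mem_filter.2 ⟨mem_univ _, hcon⟩)
    refine Finset.prod_eq_zero (mem_univ i) (geom_zero ?_ ?_)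
    · rw [← MulChar.pow_apply' χ hq0.ne', hχq, MulChar.one_apply]
      exact (mul_ne_zero (inv_ne_zero (hc i)) (sub_ne_zero.2 (hx i))).isUnit
    · intro h1
      obtain ⟨y, hy0, hy⟩ := pow_of_chi hχ
        (mul_ne_zero (inv_ne_zero (hc i)) (sub_ne_zero.2 (hx i))) h1
      refine hi ⟨y, hy0, ?_⟩
      rw [← hy, mul_inv_cancel_left₀ (hc i)]
  have hnorm : ∀ x : k, ‖∏ i, ∑ e ∈ range q, (χ ((c i)⁻¹ * (x - a i))) ^ e‖ ≤ (q : ℝ) ^ n := by
    intro x
    rw [norm_prod]
    calc ∏ i, ‖∑ e ∈ range q, (χ ((c i)⁻¹ * (x - a i))) ^ e‖ ≤ ∏ _i : Fin n, (q : ℝ) := by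
          refine Finset.prod_le_prod (fun _ _ => norm_nonneg _) fun i _ => ?_
          refine (norm_sum_le _ _).trans ?_
          calc ∑ e ∈ range q, ‖(χ ((c i)⁻¹ * (x - a i))) ^ e‖ ≤ ∑ e ∈ range q, (1 : ℝ) := by
                refine Finset.sum_le_sum fun e _ => ?_
                rw [norm_pow]
                exact pow_le_one₀ (norm_nonneg _) (WELE.mc_norm_le_one χ _)
            _ = q := by simp
      _ = (q : ℝ) ^ n := by simp
  -- the sum over all elements
  have hS1 : ‖∑ x : k, ∏ i, ∑ e ∈ range q, (χ ((c i)⁻¹ * (x - a i))) ^ e -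
      (T.card : ℂ) * (q : ℂ) ^ n‖ ≤ n * (q : ℝ) ^ n := by
    have h1 : ∑ x : k, ∏ i, ∑ e ∈ range q, (χ ((c i)⁻¹ * (x - a i))) ^ e -
        (T.card : ℂ) * (q : ℂ) ^ n =
        ∑ x ∈ (univ.image a) \ T, ∏ i, ∑ e ∈ range q, (χ ((c i)⁻¹ * (x - a i))) ^ e := by
      have h2 : ∑ x ∈ T, ∏ i, ∑ e ∈ range q, (χ ((c i)⁻¹ * (x - a i))) ^ e =
          (T.card : ℂ) * (q : ℂ) ^ n := by
        rw [Finset.sum_congr rfl hgood, Finset.sum_const, nsmul_eq_mul]
      rw [← h2, ← Finset.sum_sdiff (Finset.subset_univ T), add_sub_cancel_right]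
      symm
      refine Finset.sum_subset (Finset.sdiff_subset_sdiff (subset_univ _) le_rfl) fun x hx hx' => ?_
      have hxT : x ∉ T := (mem_sdiff.1 hx).2
      refine hbad x hxT fun i hi => hx' ?_
      rw [mem_sdiff]
      refine ⟨?_, hxT⟩
      rw [hi]
      exact mem_image_of_mem a (mem_univ i)
    rw [h1]
    refine (norm_sum_le _ _).trans ?_
    refine (Finset.sum_le_sum fun x _ => hnorm x).trans ?_
    rw [Finset.sum_const, nsmul_eq_mul]
    have h2 : (((univ.image a) \ T).card : ℝ) ≤ n := by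
      have h3 : (univ.image a).card ≤ n := by
        refine card_image_le.trans ?_
        simp
      exact_mod_cast (card_le_card sdiff_subset).trans h3
    exact mul_le_mul_of_nonneg_right h2 (by positivity)
  -- expansion
  have hexp : ∑ x : k, ∏ i, ∑ e ∈ range q, (χ ((c i)⁻¹ * (x - a i))) ^ e =
      ∑ e ∈ Fintype.piFinset fun _ : Fin n => range q, ∑ x : k, χ ((fe a c e).eval x) := by
    rw [Finset.sum_comm]
    refine Finset.sum_congr rfl fun x _ => ?_
    rw [Finset.prod_univ_sum]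
    refine Finset.sum_congr rfl fun e _ => ?_
    rw [fe_eval, map_prod]
    refine Finset.prod_congr rfl fun i _ => ?_
    rw [map_pow]
  have h0mem : (fun _ => 0 : Fin n → ℕ) ∈ Fintype.piFinset fun _ : Fin n => range q := by
    rw [Fintype.mem_piFinset]
    intro i
    exact mem_range.2 hq0
  have h0val : ∑ x : k, χ ((fe a c (fun _ => 0)).eval x) = (Fintype.card k : ℂ) := by
    simp only [fe_eval, pow_zero, Finset.prod_const_one, map_one]
    simp
  have hrest : ‖∑ e ∈ (Fintype.piFinset fun _ : Fin n => range q).erase (fun _ => 0),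
      ∑ x : k, χ ((fe a c e).eval x)‖ ≤ (q : ℝ) ^ n * (K * Real.sqrt (Fintype.card k)) := by
    refine (norm_sum_le _ _).trans ?_
    calc ∑ e ∈ (Fintype.piFinset fun _ : Fin n => range q).erase (fun _ => 0),
          ‖∑ x : k, χ ((fe a c e).eval x)‖ ≤
        ∑ e ∈ (Fintype.piFinset fun _ : Fin n => range q).erase (fun _ => 0),
          K * Real.sqrt (Fintype.card k) := by
          refine Finset.sum_le_sum fun e he => ?_
          rw [mem_erase, Fintype.mem_piFinset] at he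
          have he2 : ∀ i, e i < q := fun i => mem_range.1 (he.2 i)
          refine hK k hdvd χ hχ a c ha hc e he2 ?_
          by_contra hn
          push Not at hn
          exact he.1 (funext hn)
      _ ≤ (q : ℝ) ^ n * (K * Real.sqrt (Fintype.card k)) := by
          rw [Finset.sum_const, nsmul_eq_mul]
          refine mul_le_mul_of_nonneg_right ?_ (by positivity)
          have h3 : ((Fintype.piFinset fun _ : Fin n => range q).erase
              (fun _ => 0)).card ≤ q ^ n := by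
            refine (card_le_card (erase_subset _ _)).trans ?_
            rw [Fintype.card_piFinset]
            simp
          exact_mod_cast h3
  have hmain : |(T.card : ℝ) * (q : ℝ) ^ n - Fintype.card k| ≤
      (q : ℝ) ^ n * ((K + n) * Real.sqrt (Fintype.card k)) := by
    have h1 : (T.card : ℂ) * (q : ℂ) ^ n - (Fintype.card k : ℂ) =
        ∑ e ∈ (Fintype.piFinset fun _ : Fin n => range q).erase (fun _ => 0),
          ∑ x : k, χ ((fe a c e).eval x) -
        (∑ x : k, ∏ i, ∑ e ∈ range q, (χ ((c i)⁻¹ * (x - a i))) ^ e -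
          (T.card : ℂ) * (q : ℂ) ^ n) := by
      rw [hexp, ← Finset.add_sum_erase _ _ h0mem, h0val]
      ring
    have h2 : |(T.card : ℝ) * (q : ℝ) ^ n - Fintype.card k| =
        ‖(T.card : ℂ) * (q : ℂ) ^ n - (Fintype.card k : ℂ)‖ := by
      rw [← Real.norm_eq_abs, ← Complex.norm_real]
      push_cast
      rfl
    rw [h2, h1]
    refine (norm_sub_le _ _).trans ((add_le_add hrest hS1).trans ?_)
    have hq1 : (1 : ℝ) ≤ Real.sqrt (Fintype.card k) := by
      rw [Real.one_le_sqrt]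
      exact_mod_cast Fintype.card_pos
    have h4 : (0 : ℝ) ≤ n * (q : ℝ) ^ n := by positivity
    nlinarith
  have hqn : (0 : ℝ) < (q : ℝ) ^ n := by positivity
  have h5 : (T.card : ℝ) - Fintype.card k / (q : ℝ) ^ n =
      ((T.card : ℝ) * (q : ℝ) ^ n - Fintype.card k) / (q : ℝ) ^ n := by
    field_simp
  rw [h5, abs_div, abs_of_pos hqn, div_le_iff₀ hqn]
  linarith

end Pool.Agent.Y160.T4
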