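import Pool.Agent.Y160.T4.Two

/-!
# The conditions for `g = g₁ g₂` and `g + β ^ q = h₁ h₂`: conclusion
-/

set_option autoImplicit false
set_option linter.all false

open Polynomial

namespace Pool.Agent.Y160.T4

open Pool.Agent.Y160.FT
open Pool.Agent.Y160.T3 (split_list)

variable {E : Type} [Field E]

namespace TwoD

variable {p q M d : ℕ} {G₁ G₂ H₁ H₂ : E[X]} {β : E} (D : TwoD p q M d G₁ G₂ H₁ H₂ β)
include D

theorem redei (hp : p.Prime) (hM : p.Coprime ((d + 1) * M)) (hne : M ≠ d * M) (c : E) (A : E[X])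
    (hc : c ≠ 0) (hA : VV (G₁ * G₂) A) (h : ∀ P : E[X], P.Monic → Irreducible P → P ∣ G₁ * G₂ →
      ∃ (e : ℕ) (w : E[X]), ¬ P ∣ w ∧ P ^ (e + 1) ∣ C c * A - (G₁ * G₂) ^ e * w ^ p) :
    Triv p (G₁ * G₂) A := by
  obtain ⟨a, e₁, e₂, ha, rfl⟩ := exps_two D.i₁ D.i₂ hA
  refine triv_two ha ?_
  have n12 : ¬ G₁ ∣ G₂ := ndvd_of_deg D.i₁ D.i₂ D.m₁ D.m₂ (by rw [D.d₁, D.d₂]; exact hne)
  have n21 : ¬ G₂ ∣ G₁ := ndvd_of_deg D.i₂ D.i₁ D.m₂ D.m₁ (by rw [D.d₁, D.d₂]; exact hne.symm)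
  have hr' : Nn G₂ G₁ ≠ 0 := by
    rw [nn_symm]
    exact mul_ne_zero (pow_ne_zero _ (neg_ne_zero.2 one_ne_zero)) D.r0
  have hca : c * a ≠ 0 := mul_ne_zero hc ha
  obtain ⟨e, w, hw, hd⟩ := h G₁ D.m₁ D.i₁ (dvd_mul_right _ _)
  have h1 := cls_of_dvd D.m₁ hp.pos (by
    rw [nn_mul D.m₁, nn_C D.m₁, nn_pow D.m₁]
    exact mul_ne_zero (pow_ne_zero _ hca) (pow_ne_zero _ D.r0)) (by
    rw [nn_pow D.m₁]; exact pow_ne_zero _ D.r0) (local_two D.i₁ n12 hc ha hw hd)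
  rw [nn_mul D.m₁, nn_C D.m₁, nn_pow D.m₁, nn_pow D.m₁, cl_mul p (pow_ne_zero _ hca)
    (pow_ne_zero _ D.r0), cl_pow p hca, cl_pow p D.r0, cl_pow p D.r0, D.d₁] at h1
  obtain ⟨e', w', hw', hd'⟩ := h G₂ D.m₂ D.i₂ (dvd_mul_left _ _)
  rw [mul_comm (G₁ ^ e₁), mul_comm G₁ G₂] at hd'
  have h2 := cls_of_dvd D.m₂ hp.pos (by
    rw [nn_mul D.m₂, nn_C D.m₂, nn_pow D.m₂]
    exact mul_ne_zero (pow_ne_zero _ hca) (pow_ne_zero _ hr')) (by
    rw [nn_pow D.m₂]; exact pow_ne_zero _ hr') (local_two D.i₂ n21 hc ha hw' hd')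
  rw [nn_mul D.m₂, nn_C D.m₂, nn_pow D.m₂, nn_pow D.m₂, cl_mul p (pow_ne_zero _ hca)
    (pow_ne_zero _ hr'), cl_pow p hca, cl_pow p hr', cl_pow p hr', D.d₂, D.swap D.r0] at h2
  exact calc_redei hp (VG_pow p) hM h1 h2 D.rne

theorem side {f A w : E[X]} (hf : f.Monic) (hp : p.Prime) (hA : Nn f A ≠ 0) (h : f ∣ A - w ^ p) :
    cl p (Nn f A) = 1 := by
  have h1 := nn_congr hf h
  rw [nn_pow hf] at h1
  have hw : Nn f w ≠ 0 := by
    intro h0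
    rw [h0, zero_pow hp.ne_zero] at h1
    exact hA h1
  rw [h1, cl_ppow p hw]

theorem step (hp : p.Prime) (hqs : ∃ s, q = p ^ (s + 1)) (hM : p.Coprime ((d + 1) * M)) (c : E)
    (A w : E[X]) (hc : c ≠ 0) (hA : VV (G₁ * G₂) A) (h : H₁ * H₂ ∣ C c * A - w ^ p) :
    Triv p (G₁ * G₂) A := by
  obtain ⟨a, e₁, e₂, ha, rfl⟩ := exps_two D.i₁ D.i₂ hA
  refine triv_two ha ?_
  have hca : c * a ≠ 0 := mul_ne_zero hc ha
  have key : ∀ f : E[X], f.Monic → f ∣ H₁ * H₂ →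
      cl p (c * a) ^ f.natDegree * (cl p (Nn f G₁) ^ e₁ * cl p (Nn f G₂) ^ e₂) = 1 := by
    intro f hf hfd
    obtain ⟨x1, x2⟩ := D.ne f hf hfd
    have e : C c * (C a * (G₁ ^ e₁ * G₂ ^ e₂)) = C (c * a) * (G₁ ^ e₁ * G₂ ^ e₂) := by
      rw [C_mul]; ring
    have h3 := hfd.trans h
    rw [e] at h3
    have e2 : Nn f (C (c * a) * (G₁ ^ e₁ * G₂ ^ e₂)) =
        (c * a) ^ f.natDegree * (Nn f G₁ ^ e₁ * Nn f G₂ ^ e₂) := by
      rw [nn_mul hf, nn_C hf, nn_mul hf, nn_pow hf, nn_pow hf]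
    have h4 := D.side hf hp (by
      rw [e2]
      exact mul_ne_zero (pow_ne_zero _ hca) (mul_ne_zero (pow_ne_zero _ x1) (pow_ne_zero _ x2))) h3
    rw [e2, cl_mul p (pow_ne_zero _ hca) (mul_ne_zero (pow_ne_zero _ x1) (pow_ne_zero _ x2)),
      cl_mul p (pow_ne_zero _ x1) (pow_ne_zero _ x2), cl_pow p hca, cl_pow p x1, cl_pow p x2] at h4
    exact h4
  have k1 := key H₁ D.n₁ (dvd_mul_right _ _)
  have k2 := key H₂ D.n₂ (dvd_mul_left _ _)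
  rw [D.e₁] at k1
  rw [D.e₂] at k2
  exact calc_step hp (VG_pow p) hM k1 k2 (D.cH hqs H₁ D.n₁ (dvd_mul_right _ _))
    (D.cH' hqs G₁ D.m₁ (dvd_mul_right _ _)) (D.cH' hqs G₂ D.m₂ (dvd_mul_left _ _)) D.tne

theorem row (hp : p.Prime) (hqs : ∃ s, q = p ^ (s + 1)) (hM : p.Coprime ((d + 1) * M)) (c : E)
    (B : E[X]) (hc : c ≠ 0) (hB : VV (H₁ * H₂) B) (h : ∀ P : E[X], P.Monic → Irreducible P →
      P ∣ G₁ * G₂ → ∃ w : E[X], P ∣ C c * B - w ^ p) :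
    Triv p (H₁ * H₂) B := by
  obtain ⟨a, e₁, e₂, ha, rfl⟩ := exps_two D.j₁ D.j₂ hB
  refine triv_two ha ?_
  have hca : c * a ≠ 0 := mul_ne_zero hc ha
  have key : ∀ f : E[X], f.Monic → Irreducible f → f ∣ G₁ * G₂ →
      cl p (c * a) ^ f.natDegree * (cl p (Nn f H₁) ^ e₁ * cl p (Nn f H₂) ^ e₂) = 1 := by
    intro f hf hfi hfd
    obtain ⟨x1, x2⟩ := D.ne' f hf hfd
    obtain ⟨w, h3⟩ := h f hf hfi hfd
    have e : C c * (C a * (H₁ ^ e₁ * H₂ ^ e₂)) = C (c * a) * (H₁ ^ e₁ * H₂ ^ e₂) := by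
      rw [C_mul]; ring
    rw [e] at h3
    have e2 : Nn f (C (c * a) * (H₁ ^ e₁ * H₂ ^ e₂)) =
        (c * a) ^ f.natDegree * (Nn f H₁ ^ e₁ * Nn f H₂ ^ e₂) := by
      rw [nn_mul hf, nn_C hf, nn_mul hf, nn_pow hf, nn_pow hf]
    have h4 := D.side hf hp (by
      rw [e2]
      exact mul_ne_zero (pow_ne_zero _ hca) (mul_ne_zero (pow_ne_zero _ x1) (pow_ne_zero _ x2))) h3
    rw [e2, cl_mul p (pow_ne_zero _ hca) (mul_ne_zero (pow_ne_zero _ x1) (pow_ne_zero _ x2)),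
      cl_mul p (pow_ne_zero _ x1) (pow_ne_zero _ x2), cl_pow p hca, cl_pow p x1, cl_pow p x2] at h4
    exact h4
  have k1 := key G₁ D.m₁ D.i₁ (dvd_mul_right _ _)
  have k2 := key G₂ D.m₂ D.i₂ (dvd_mul_left _ _)
  rw [D.d₁] at k1
  rw [D.d₂] at k2
  exact calc_step hp (VG_pow p) hM k1 k2 (D.cG hqs G₁ D.m₁ (dvd_mul_right _ _))
    (D.cG' hqs H₁ D.n₁ (dvd_mul_right _ _)) (D.cG' hqs H₂ D.n₂ (dvd_mul_left _ _)) (by
      rw [D.swap D.t0]; exact D.tne)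

/-- The conditions. -/
theorem cond [PerfectField E] {s n : ℕ} {c : E} (hp : p.Prime) (hq : q = p ^ (s + 1))
    (hM : p.Coprime ((d + 1) * M)) (hd : 2 ≤ d) (hc : c ≠ 0) :
    Cond2 p q (G₁ * G₂) ((C β, c) :: (List.replicate n (1 : E)).map fun a' => ((0 : E[X]), a')) := by
  have hp0 : 0 < p := hp.pos
  have hqs : ∃ s, q = p ^ (s + 1) := ⟨s, hq⟩
  have hM0 : 0 < M := by
    rcases Nat.eq_zero_or_pos M with h | h
    · rw [h, mul_zero, Nat.coprime_zero_right] at hM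
      exact absurd hM hp.one_lt.ne'
    · exact h
  have hne : M ≠ d * M := by
    intro h
    have : 2 * M ≤ d * M := Nat.mul_le_mul hd le_rfl
    omega
  have key := fun l₁ b' a l₂ h => split_list p hp0 (C β : E[X]) c (List.replicate n (1 : E)) l₁ b' a l₂ h
  have hdeg : (G₁ * G₂).natDegree = (d + 1) * M := by
    rw [D.m₁.natDegree_mul D.m₂, D.d₁, D.d₂]; ring
  have hsep : ∀ {P Q : E[X]}, P.Monic → Q.Monic → Irreducible P → Irreducible Q →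
      P.natDegree = M → Q.natDegree = d * M → (P * Q).Separable := by
    intro P Q hPm hQm hP hQ h1 h2
    refine (PerfectField.separable_of_irreducible hP).mul (PerfectField.separable_of_irreducible hQ) ?_
    exact (hP.coprime_iff_not_dvd).2 (ndvd_of_deg hP hQ hPm hQm (by rw [h1, h2]; exact hne))
  have hEq : C β ^ q = (C (β ^ q) : E[X]) := (C_pow).symm
  refine
    { monic := D.m₁.mul D.m₂
      sep := hsep D.m₁ D.m₂ D.i₁ D.i₂ D.d₁ D.d₂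
      cop := by rw [hdeg]; exact hM
      redei := fun c A hc hA h => D.redei hp hM hne c A hc hA h
      ne := ?_
      deg := ?_
      cpr := ?_
      gsep := ?_
      step := ?_
      row := ?_ }
  · intro l₁ b a₁ l₂ hl
    rcases (key l₁ b a₁ l₂ hl).1 with h | h
    · rwa [h]
    · rw [List.eq_of_mem_replicate h]; exact one_ne_zero
  · intro l₁ b' a₁ l₂ hl
    have h0 : b'.natDegree = 0 := by
      rcases (key l₁ b' a₁ l₂ hl).2.1 with ⟨-, h'⟩ | h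
      · rw [h', natDegree_C]
      · rw [h, natDegree_zero]
    rw [h0, mul_zero, hdeg]
    exact Nat.mul_pos (Nat.succ_pos _) hM0
  · intro l₁ b' a₁ l₂ hl
    rw [(key l₁ b' a₁ l₂ hl).2.2]
    refine ⟨0, C β⁻¹, ?_⟩
    rw [zero_mul, zero_add, ← C_mul, inv_mul_cancel₀ D.hβ, C_1]
  · intro l₁ b' a₁ l₂ hl
    rw [(key l₁ b' a₁ l₂ hl).2.2, hEq, D.id]
    exact hsep D.n₁ D.n₂ D.j₁ D.j₂ D.e₁ D.e₂
  · intro l₁ b' a₁ l₂ hl c A w hc hA h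
    rw [(key l₁ b' a₁ l₂ hl).2.2, hEq, D.id] at h
    exact D.step hp hqs hM c A w hc hA h
  · intro l₁ b' a₁ l₂ hl c B hc hB h
    rw [(key l₁ b' a₁ l₂ hl).2.2, hEq, D.id] at hB ⊢
    exact D.row hp hqs hM c B hc hB h

end TwoD

end Pool.Agent.Y160.T4
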