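import Pool.Agent.Y160.T4.Jac

/-!
# Irreducible polynomials whose value at an element is not a `p`-th power
-/

set_option autoImplicit false
set_option linter.all false

namespace Pool.Agent.Y160.T4

open Polynomial Finset IntermediateField
open Pool.Agent.H435R3.Weil
open Pool.Agent.Y160.T3 (low_card norm_coeff gen_ex GoodP mF mF_of)

section val

variable {F κ : Type} [Field F] [Fintype F] [Field κ] [Fintype κ] [Algebra F κ]

/-- The value of the minimal polynomial and the norm. -/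
theorem norm_eval {θ : κ} (h : (minpoly F θ).natDegree = Module.finrank F κ) (ρ : F) :
    Algebra.norm F (algebraMap F κ ρ - θ) = (minpoly F θ).eval ρ := by
  have h1 : minpoly F (θ - algebraMap F κ ρ) = (minpoly F θ).comp (X + C ρ) :=
    minpoly.sub_algebraMap θ ρ
  have h2 : (minpoly F (θ - algebraMap F κ ρ)).natDegree = Module.finrank F κ := by
    rw [h1, natDegree_comp, natDegree_X_add_C, mul_one, h]
  have h3 := norm_coeff h2
  have h4 : (minpoly F (θ - algebraMap F κ ρ)).coeff 0 = (minpoly F θ).eval ρ := by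
    rw [h1, coeff_zero_eq_eval_zero, eval_comp, eval_add, eval_X, eval_C, zero_add]
  rw [h4] at h3
  have h5 : algebraMap F κ ρ - θ = algebraMap F κ (-1) * (θ - algebraMap F κ ρ) := by
    rw [map_neg, map_one]; ring
  rw [h5, map_mul, h3, Algebra.norm_algebraMap, ← mul_assoc, ← mul_pow]
  norm_num

end val

open Classical in
/-- The number of the polynomials. -/
theorem ev_count {d R p : ℕ} (hp : p.Prime) (hd : 0 < d) (hR : Odd R) (hcop : p.Coprime R) :
    ∃ N₁ : ℕ, ∀ (F : Type) [Field F] [Fintype F], p ∣ Fintype.card F - 1 →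
    R ∣ Fintype.card F - 1 → N₁ ≤ Fintype.card F → ∀ ρ : F, ρ ≠ 0 →
    Fintype.card F ^ d ≤ 4 * R * d *
      (univ.filter fun a : Fin d → F => GoodP R (mF a) ∧ ∀ y : F, y ^ p ≠ (mF a).eval ρ).card := by
  refine ⟨(8 * R * (d + 3)) ^ 2, ?_⟩
  intro F _ _ hpF hRF hN ρ hρ
  obtain ⟨c, hcc⟩ := CharP.exists F
  haveI : Fact c.Prime := ⟨CharP.char_is_prime F c⟩
  haveI : NeZero d := ⟨hd.ne'⟩
  let κ := FiniteField.Extension F c d
  haveI : Finite κ := inferInstanceAs (Finite (FiniteField.Extension F c d))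
  haveI : Fintype κ := Fintype.ofFinite κ
  have hfr : Module.finrank F κ = d := FiniteField.finrank_extension F c d
  have hcard : Fintype.card κ = Fintype.card F ^ d := by
    rw [Module.card_eq_pow_finrank (K := F), hfr]
  have hR0 : 0 < R := hR.pos
  obtain ⟨g₀, hg₀, hg₀N⟩ := gen_ex F
  obtain ⟨γ, hγ⟩ := FiniteField.norm_surjective F κ g₀
  have hγ0 : γ ≠ 0 := by
    rintro rfl
    rw [Algebra.norm_zero] at hγ
    exact hg₀ hγ.symm
  have hdvd : Fintype.card F - 1 ∣ Fintype.card κ - 1 := by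
    rw [hcard]
    simpa using Nat.sub_dvd_pow_sub_pow (Fintype.card F) 1 d
  -- the set of the elements `γ y ^ R`
  set Θ : Finset κ := (univ.erase (0 : κ)).image fun y => γ * y ^ R with hΘ
  have hΘm : ∀ θ, θ ∈ Θ ↔ ∃ y : κ, y ≠ 0 ∧ θ = γ * y ^ R := by
    intro θ
    rw [hΘ, mem_image]
    constructor
    · rintro ⟨y, hy, rfl⟩
      exact ⟨y, (mem_erase.1 hy).1, rfl⟩
    · rintro ⟨y, hy, rfl⟩
      exact ⟨y, mem_erase.2 ⟨hy, mem_univ _⟩, rfl⟩
  have h1 : Fintype.card F ^ d - 1 ≤ R * Θ.card := by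
    have e1 := Finset.card_le_mul_card_image (f := fun y : κ => γ * y ^ R)
      (univ.erase (0 : κ)) R (fun b hb => by
        obtain ⟨y₀, -, hy₀⟩ := mem_image.1 hb
        have e2 : ((univ.erase (0 : κ)).filter fun y => γ * y ^ R = b) ⊆
            (nthRoots R (y₀ ^ R)).toFinset := by
          intro y hy
          have e3 := (mem_filter.1 hy).2
          rw [← hy₀] at e3
          rw [Multiset.mem_toFinset, mem_nthRoots hR0]
          exact mul_left_cancel₀ hγ0 e3
        exact (card_le_card e2).trans ((Multiset.toFinset_card_le _).trans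
          (card_nthRoots R _)))
    rw [card_erase_of_mem (mem_univ _), card_univ, hcard] at e1
    exact e1
  -- the characters
  obtain ⟨χ₀, hχ₀⟩ := MulChar.exists_mulChar_orderOf F hpF (Complex.isPrimitiveRoot_exp p hp.ne_zero)
  have hχ₀p : χ₀ ^ p = 1 := by rw [← hχ₀]; exact pow_orderOf_eq_one χ₀
  have hχ₀1 : χ₀ ≠ 1 := by
    intro h0
    rw [h0, orderOf_one] at hχ₀
    exact hp.one_lt.ne hχ₀
  set χ := normChar F κ χ₀ with hχ
  have hχ1 : χ ≠ 1 := normChar_ne_one F κ χ₀ hχ₀1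
  have hχp : χ ^ p = 1 := normChar_pow F κ χ₀ p hp.ne_zero hχ₀p
  have hρ' : algebraMap F κ ρ ≠ 0 := by
    rwa [Ne, map_eq_zero]
  set Θ₁ : Finset κ := Θ.filter fun θ => χ (algebraMap F κ ρ - θ) ≠ 1 with hΘ₁
  have h2 := class_card (L := κ) hR0 (hRF.trans hdvd) hp hcop hχ1 hχp hγ0 hρ' Θ hΘm Θ₁
    (fun θ hθ h => mem_filter.2 ⟨hθ, h⟩)
  set Θ' : Finset κ := (Θ₁.filter fun θ => (minpoly F θ).natDegree = d).erase (algebraMap F κ ρ)
    with hΘ'
  have hle : ∀ θ : κ, (minpoly F θ).natDegree ≤ d := by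
    intro θ
    exact (minpoly.natDegree_le θ).trans hfr.le
  have h3 : Θ₁.card ≤ Θ'.card + d * Fintype.card F ^ (d - 1) + 1 := by
    have e1 : Θ₁ ⊆ (Θ' ∪ (univ.filter fun θ : κ => (minpoly F θ).natDegree < d)) ∪
        {algebraMap F κ ρ} := by
      intro θ hθ
      by_cases h0 : θ = algebraMap F κ ρ
      · exact mem_union_right _ (mem_singleton.2 h0)
      rcases (hle θ).lt_or_eq with h | h
      · exact mem_union_left _ (mem_union_right _ (mem_filter.2 ⟨mem_univ _, h⟩))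
      · exact mem_union_left _ (mem_union_left _ (mem_erase.2 ⟨h0, mem_filter.2 ⟨hθ, h⟩⟩))
    have e2 := card_le_card e1
    have e3 := card_union_le (Θ' ∪ (univ.filter fun θ : κ => (minpoly F θ).natDegree < d))
      {algebraMap F κ ρ}
    have e4 := card_union_le Θ' (univ.filter fun θ : κ => (minpoly F θ).natDegree < d)
    have e5 := low_card (F := F) (κ := κ) hd
    rw [card_singleton] at e3
    omega
  -- the minimal polynomials
  have hmem : ∀ θ ∈ Θ', (minpoly F θ).natDegree = d ∧ θ ∈ Θ ∧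
      χ (algebraMap F κ ρ - θ) ≠ 1 ∧ θ ≠ algebraMap F κ ρ := by
    intro θ hθ
    obtain ⟨a1, a2⟩ := mem_erase.1 hθ
    obtain ⟨a3, a4⟩ := mem_filter.1 a2
    obtain ⟨a5, a6⟩ := mem_filter.1 a3
    exact ⟨a4, a5, a6, a1⟩
  have hmF : ∀ θ ∈ Θ', mF (fun i : Fin d => (minpoly F θ).coeff i) = minpoly F θ := by
    intro θ hθ
    exact mF_of (minpoly.monic (IsIntegral.of_finite F θ)) (hmem θ hθ).1
  set G := (univ.filter fun a : Fin d → F => GoodP R (mF a) ∧ ∀ y : F, y ^ p ≠ (mF a).eval ρ) with hG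
  have h4 : Θ'.card ≤ d * G.card := by
    have e1 : (Θ'.image fun θ => fun i : Fin d => (minpoly F θ).coeff i) ⊆ G := by
      intro a ha
      obtain ⟨θ, hθ, rfl⟩ := mem_image.1 ha
      obtain ⟨hθ2, hθ1, hθ3, hθ4⟩ := hmem θ hθ
      rw [hG, mem_filter]
      refine ⟨mem_univ _, ?_⟩
      rw [hmF θ hθ]
      refine ⟨⟨minpoly.irreducible (IsIntegral.of_finite F θ), ?_⟩, ?_⟩
      · intro N hNp hNR y hy
        obtain ⟨z, hz0, hz'⟩ := (hΘm θ).1 hθ1
        have e2 := norm_coeff (F := F) (θ := θ) (by rw [hθ2, hfr])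
        rw [hz', map_mul, map_pow, hγ, hfr, ← hz', ← hy] at e2
        obtain ⟨R', rfl⟩ := hNR
        have hNodd : Odd N := hR.of_dvd_nat (Dvd.intro _ rfl)
        have hnz : Algebra.norm F z ^ R' ≠ 0 := pow_ne_zero _ (Algebra.norm_ne_zero_iff.2 hz0)
        have e3 : ((-1) ^ d * y / Algebra.norm F z ^ R') ^ N = g₀ := by
          rw [div_pow, mul_pow, ← pow_mul, ← pow_mul, mul_comm R' N, mul_comm d N,
            pow_mul (-1 : F) N d, hNodd.neg_one_pow, ← e2,
            mul_div_cancel_right₀ _ (pow_ne_zero _ (Algebra.norm_ne_zero_iff.2 hz0))]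
        exact hg₀N N hNp ((Dvd.intro _ rfl : N ∣ N * R').trans hRF) _ e3
      · intro y hy
        have e2 := norm_eval (F := F) (θ := θ) (by rw [hθ2, hfr]) ρ
        apply hθ3
        rw [hχ, normChar_apply, e2, ← hy, map_pow, ← MulChar.pow_apply' χ₀ hp.ne_zero, hχ₀p,
          MulChar.one_apply]
        rw [isUnit_iff_ne_zero]
        rintro rfl
        rw [zero_pow hp.ne_zero] at hy
        rw [← hy] at e2
        have := Algebra.norm_ne_zero_iff (R := F).2 (sub_ne_zero.2 hθ4.symm)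
        exact this e2
    have e4 := Finset.card_le_mul_card_image (f := fun θ : κ => fun i : Fin d =>
      (minpoly F θ).coeff i) Θ' d (fun a ha => by
        obtain ⟨θ₀, hθ₀, hθ₀'⟩ := mem_image.1 ha
        have e5 : (Θ'.filter fun θ => (fun i : Fin d => (minpoly F θ).coeff i) = a) ⊆
            ((minpoly F θ₀).map (algebraMap F κ)).roots.toFinset := by
          intro θ hθ
          obtain ⟨hθ1, hθ2⟩ := mem_filter.1 hθ
          have e6 : minpoly F θ = minpoly F θ₀ := by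
            rw [← hmF θ hθ1, ← hmF θ₀ hθ₀, hθ2, hθ₀']
          have hne : (minpoly F θ₀).map (algebraMap F κ) ≠ 0 :=
            (Polynomial.map_ne_zero (minpoly.ne_zero (IsIntegral.of_finite F θ₀)))
          rw [Multiset.mem_toFinset, mem_roots hne, IsRoot.def, eval_map_algebraMap, ← e6,
            minpoly.aeval]
        refine (card_le_card e5).trans ((Multiset.toFinset_card_le _).trans
          ((card_roots' _).trans ?_))
        exact natDegree_map_le.trans (hle θ₀))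
    exact e4.trans (Nat.mul_le_mul le_rfl (card_le_card e1))
  -- arithmetic
  set n := Fintype.card F with hn'
  have hn1 : 1 ≤ n := Fintype.card_pos
  obtain ⟨d', rfl⟩ : ∃ d', d = d' + 1 := ⟨d - 1, by omega⟩
  rw [Nat.add_sub_cancel] at h3
  have hnR : (1 : ℝ) ≤ n := by exact_mod_cast hn1
  set x := Real.sqrt n with hx
  have hx1 : 1 ≤ x := Real.one_le_sqrt.2 hnR
  have hxx : x ^ 2 = n := Real.sq_sqrt (by linarith)
  have hxN : (8 * R * ((d' + 1 : ℕ) + 3) : ℝ) ≤ x := by
    refine Real.le_sqrt_of_sq_le ?_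
    exact_mod_cast hN
  have hsq : Real.sqrt (Fintype.card κ) = x ^ (d' + 1) := by
    rw [hcard]
    push_cast
    rw [Real.sqrt_eq_iff_mul_self_eq (by positivity) (by positivity), ← sq, ← pow_mul,
      mul_comm, pow_mul, hxx]
  rw [hsq] at h2
  have h1R : (n : ℝ) ^ (d' + 1) - 1 ≤ R * Θ.card := by
    have h5 : ((n ^ (d' + 1) - 1 : ℕ) : ℝ) ≤ ((R * Θ.card : ℕ) : ℝ) := by exact_mod_cast h1
    rw [Nat.cast_sub (Nat.one_le_pow _ _ hn1)] at h5
    push_cast at h5
    exact h5
  have h3R : (Θ₁.card : ℝ) ≤ (d' + 1 : ℕ) * G.card + (d' + 1 : ℕ) * (n : ℝ) ^ d' + 1 := by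
    have h5 : Θ₁.card ≤ (d' + 1) * G.card + (d' + 1) * n ^ d' + 1 := by omega
    exact_mod_cast h5
  have hnd : (n : ℝ) ^ (d' + 1) = x ^ (2 * d' + 2) := by
    rw [← hxx, ← pow_mul]; ring_nf
  have hnd' : (n : ℝ) ^ d' = x ^ (2 * d') := by
    rw [← hxx, ← pow_mul]
  have hRR : (1 : ℝ) ≤ R := by exact_mod_cast hR0
  set D : ℝ := ((d' + 1 : ℕ) : ℝ) with hD
  have hD1 : (1 : ℝ) ≤ D := by rw [hD]; push_cast; linarith [(Nat.cast_nonneg d' : (0 : ℝ) ≤ d')]
  -- the bound
  have hb1 : x ^ (d' + 1) ≤ x ^ (2 * d' + 1) := pow_le_pow_right₀ hx1 (by omega)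
  have hb2 : x ^ (2 * d') ≤ x ^ (2 * d' + 1) := pow_le_pow_right₀ hx1 (by omega)
  have hb3 : (1 : ℝ) ≤ x ^ (2 * d' + 1) := one_le_pow₀ hx1
  have hb4 : 8 * R * (D + 3) * x ^ (2 * d' + 1) ≤ x ^ (2 * d' + 2) := by
    rw [pow_succ x (2 * d' + 1), mul_comm (x ^ (2 * d' + 1)) x]
    exact mul_le_mul_of_nonneg_right hxN (by positivity)
  rw [hnd] at h1R
  rw [hnd'] at h3R
  have hgoal : (n : ℝ) ^ (d' + 1) ≤ 4 * R * D * G.card := by
    rw [hnd]
    set y := x ^ (2 * d' + 1) with hy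
    set z := x ^ (2 * d' + 2) with hz
    have c1 : (Θ.card : ℝ) ≤ 2 * Θ₁.card + y + y := by linarith
    have c2 : (Θ₁.card : ℝ) ≤ D * G.card + D * y + y := by
      have : D * x ^ (2 * d') ≤ D * y := mul_le_mul_of_nonneg_left hb2 (by linarith)
      linarith
    have c3 : z ≤ R * (2 * (D * G.card) + 2 * D * y + 4 * y) + y := by
      have c4 : (Θ.card : ℝ) ≤ 2 * (D * G.card) + 2 * D * y + 4 * y := by linarith
      have c5 := mul_le_mul_of_nonneg_left c4 (by linarith : (0 : ℝ) ≤ R)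
      linarith
    have c6 : y ≤ R * y := by nlinarith
    have c7 : 0 ≤ R * D * y := by positivity
    have c8 : 0 ≤ (R : ℝ) * y := by positivity
    have c9 : z ≤ 2 * (R * D * G.card) + 2 * (R * D * y) + 4 * (R * y) + y := by
      calc z ≤ R * (2 * (D * G.card) + 2 * D * y + 4 * y) + y := c3
        _ = _ := by ring
    have c10 : 8 * (R * D * y) + 24 * (R * y) ≤ z := by
      calc 8 * (R * D * y) + 24 * (R * y) = 8 * R * (D + 3) * y := by ring
        _ ≤ z := hb4
    have c11 : 4 * R * D * (G.card : ℝ) = 4 * (R * D * G.card) := by ring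
    rw [c11]
    linarith
  have : ((n ^ (d' + 1) : ℕ) : ℝ) ≤ ((4 * R * (d' + 1) * G.card : ℕ) : ℝ) := by
    push_cast
    rw [hD] at hgoal
    push_cast at hgoal
    exact hgoal
  exact_mod_cast this

end Pool.Agent.Y160.T4
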