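import Pool.Agent.Y160.T4.Cond

/-!
# The conclusions for the surfaces `w ^ q = (x ^ M - ρ) u(x ^ M) + (β + c t ^ (p ^ d)) ^ q`
-/

set_option autoImplicit false
set_option linter.all false

open Polynomial

namespace Pool.Agent.Y160.T4

open Pool.Agent.TH115.GD (IsTower)
open Pool.Agent.Y160.FT
open Pool.Agent.Y160.HI (exists_tower)
open Pool.Agent.Y160.SL (Concl ShaBasis)
open Pool.Agent.Y160.T3 (ff_eq)

variable {E : Type} [Field E]

/-- The conditions on the elements and polynomials. -/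
structure PtD (p q M : ℕ) (ρ γ β : E) (u v : E[X]) : Prop where
  um : u.Monic
  vm : v.Monic
  deg : v.natDegree = u.natDegree
  id : (X - C ρ) * u + C (β ^ q) = (X - C γ) * v
  i₁ : Irreducible (expand E M (X - C ρ))
  i₂ : Irreducible (expand E M u)
  j₁ : Irreducible (expand E M (X - C γ))
  j₂ : Irreducible (expand E M v)
  hβ : β ≠ 0
  neg : ∃ y : E, y ^ p = -1
  S : ∀ y : E, y ^ p ≠ u.eval ρ
  T : ∀ y : E, y ^ p ≠ γ - ρ

theorem mkTwo {p q M : ℕ} {ρ γ β : E} {u v : E[X]} (hp : p.Prime) (hM : p.Coprime M)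
    (h : PtD p q M ρ γ β u v) :
    TwoD p q M u.natDegree (expand E M (X - C ρ)) (expand E M u) (expand E M (X - C γ))
      (expand E M v) β := by
  have hM0 : 0 < M := by
    rcases Nat.eq_zero_or_pos M with h | h
    · rw [h, Nat.coprime_zero_right] at hM
      exact absurd hM hp.one_lt.ne'
    · exact h
  have m1 : ∀ x : E, (expand E M (X - C x)).Monic := fun x => (monic_X_sub_C x).expand hM0
  have d1 : ∀ x : E, (expand E M (X - C x)).natDegree = M := fun x => by
    rw [natDegree_expand, natDegree_X_sub_C, one_mul]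
  have hu0 : u.eval ρ ≠ 0 := by
    intro h0
    exact h.S 0 (by rw [zero_pow hp.ne_zero, h0])
  have ht0 : γ - ρ ≠ 0 := by
    intro h0
    exact h.T 0 (by rw [zero_pow hp.ne_zero, h0])
  have nn1 : Nn (expand E M (X - C ρ)) (expand E M u) = (u.eval ρ) ^ M := by
    have h1 : expand E M (X - C ρ) ∣ expand E M u - C (u.eval ρ) := by
      have h2 : (X - C ρ) ∣ u - C (u.eval ρ) := X_sub_C_dvd_sub_C_eval
      have h3 := map_dvd (expand E M) h2
      rwa [map_sub (expand E M) u, expand_C] at h3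
    rw [nn_congr (m1 ρ) h1, nn_C (m1 ρ), d1]
  have nn2 : Nn (expand E M (X - C γ)) (expand E M (X - C ρ)) = (γ - ρ) ^ M := by
    have h1 : expand E M (X - C γ) ∣ expand E M (X - C ρ) - C (γ - ρ) := by
      have h2 : expand E M (X - C ρ) - C (γ - ρ) = expand E M (X - C γ) := by
        simp only [map_sub, expand_X, expand_C]; ring
      rw [h2]
    rw [nn_congr (m1 γ) h1, nn_C (m1 γ), d1]
  refine
    { m₁ := m1 ρ
      m₂ := h.um.expand hM0
      n₁ := m1 γ
      n₂ := h.vm.expand hM0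
      i₁ := h.i₁
      i₂ := h.i₂
      j₁ := h.j₁
      j₂ := h.j₂
      d₁ := d1 ρ
      d₂ := natDegree_expand _ _
      e₁ := d1 γ
      e₂ := by rw [natDegree_expand, h.deg]
      id := ?_
      hβ := h.hβ
      hi := ?_
      rne := ?_
      tne := ?_
      r0 := by rw [nn1]; exact pow_ne_zero _ hu0
      t0 := by rw [nn2]; exact pow_ne_zero _ ht0 }
  · have h1 := congrArg (expand E M) h.id
    rwa [map_add, map_mul, map_mul, expand_C] at h1
  · exact (cl_eq_one p (neg_ne_zero.2 one_ne_zero)).2 h.neg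
  · rw [nn1, cl_pow p hu0]
    intro h0
    obtain ⟨y, hy⟩ := (cl_eq_one p hu0).1 (one_of_cop (VG_pow p _) hM h0)
    exact h.S y hy
  · rw [nn2, cl_pow p ht0]
    intro h0
    obtain ⟨y, hy⟩ := (cl_eq_one p ht0).1 (one_of_cop (VG_pow p _) hM h0)
    exact h.T y hy

/-- The conclusions over a perfect field. -/
theorem conclT2 [PerfectField E] {p q s M : ℕ} {ρ γ β c ζ : E} {u v : E[X]} (hp : p.Prime)
    (hq : q = p ^ (s + 1)) (hζ : IsPrimitiveRoot ζ q) (hM : p.Coprime M)
    (hm : p.Coprime (u.natDegree + 1)) (hu : 2 ≤ u.natDegree) (h : PtD p q M ρ γ β u v) (hc : c ≠ 0)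
    {d : ℕ} (hd : 0 < d) {k' K F : Type} [Field k'] [Algebra E k'] [Field K] [Algebra E[X] K]
    [IsFractionRing E[X] K] [Field F] [Algebra k'[X] F] [IsFractionRing k'[X] F] [Algebra K F]
    (hT : IsTower E k' K F) :
    Concl p q 1 E k' F
      (((expand E M ((X - C ρ) * u)).map C + ((C β).map C + C (C c * X ^ (p ^ d))) ^ q).map
        (algebraMap E[X] K)) := by
  obtain ⟨n, rfl⟩ : ∃ n, d = n + 1 := ⟨d - 1, by omega⟩
  have D := mkTwo hp hM h
  have hC := D.cond (n := n) hp hq (hm.mul_right hM) hu hc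
  have hM0 : 0 < M := by
    rcases Nat.eq_zero_or_pos M with h | h
    · rw [h, Nat.coprime_zero_right] at hM
      exact absurd hM hp.one_lt.ne'
    · exact h
  have hne : expand E M (X - C ρ) ≠ expand E M u := by
    intro h0
    have h1 := congrArg natDegree h0
    rw [D.d₁, D.d₂] at h1
    have : 2 * M ≤ u.natDegree * M := Nat.mul_le_mul hu le_rfl
    omega
  obtain ⟨h1, h2, h3⟩ := conclA (F := F) (k' := k') (K := K) hT hp hq hζ hC.base
    (asm2 hp hq hζ hC) (![expand E M (X - C ρ), expand E M u] : Fin (1 + 1) → E[X])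
    (fun i => by fin_cases i <;> [exact ⟨D.i₁, D.m₁⟩; exact ⟨D.i₂, D.m₂⟩])
    (fun i j hij => by
      fin_cases i <;> fin_cases j <;> first | rfl | exact absurd hij hne | exact absurd hij.symm hne)
    (by rw [Fin.prod_univ_two]; rfl)
  rw [ff_eq] at h1 h2 h3
  rw [map_mul]
  exact ⟨SL.tateAt_of h1, SL.shaTriv_of h2, h3⟩

/-- The conclusions for the Jacobian. -/
theorem shaT2 [PerfectField E] {p q s M : ℕ} {ρ γ β c ζ : E} {u v : E[X]} (hp : p.Prime)
    (hq : q = p ^ (s + 1)) (hζ : IsPrimitiveRoot ζ q) (hM : p.Coprime M)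
    (hm : p.Coprime (u.natDegree + 1)) (hu : 2 ≤ u.natDegree) (h : PtD p q M ρ γ β u v) (hc : c ≠ 0)
    {d : ℕ} (hd : 0 < d) (K : Type) [Field K] [Algebra E[X] K] [IsFractionRing E[X] K] :
    ShaBasis p q 1 E
      (((expand E M ((X - C ρ) * u)).map C + ((C β).map C + C (C c * X ^ (p ^ d))) ^ q).map
        (algebraMap E[X] K)) := by
  obtain ⟨k', F, _, _, _, _, _, _, hT⟩ := exists_tower E K
  have h := conclT2 (F := F) (k' := k') (K := K) hp hq hζ hM hm hu h hc hd hT
  exact ⟨h.sha, h.basis⟩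

end Pool.Agent.Y160.T4
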