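import Pool.Agent.Y160.T4.Ev
import Pool.Agent.Y160.T4.Bil2

/-!
# Lines of irreducible polynomials
-/

set_option autoImplicit false
set_option linter.all false

namespace Pool.Agent.Y160.T4

open Polynomial Finset
open Pool.Agent.Y160.T3 (gen_ex GoodP mF mF_of mF_monic mF_natDegree mF_inj)

/-- The element is not zero and not an `N`-th power for the primes `N` which divide `R`. -/
def PR {F : Type} [Field F] (R : ℕ) (ρ : F) : Prop :=
  ρ ≠ 0 ∧ ∀ N : ℕ, N.Prime → N ∣ R → ∀ y : F, y ^ N ≠ ρ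

open Classical in
theorem pr_count {R : ℕ} (hR : 0 < R) (F : Type) [Field F] [Fintype F]
    (hRF : R ∣ Fintype.card F - 1) :
    Fintype.card F - 1 ≤ R * (univ.filter fun ρ : F => PR R ρ).card := by
  obtain ⟨g₀, hg₀, hg₀N⟩ := gen_ex F
  have e1 := Finset.card_le_mul_card_image (f := fun y : F => g₀ * y ^ R)
    (univ.erase (0 : F)) R (fun b hb => by
      obtain ⟨y₀, -, hy₀⟩ := mem_image.1 hb
      have e2 : ((univ.erase (0 : F)).filter fun y => g₀ * y ^ R = b) ⊆
          (nthRoots R (y₀ ^ R)).toFinset := by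
        intro y hy
        have e3 := (mem_filter.1 hy).2
        rw [← hy₀] at e3
        rw [Multiset.mem_toFinset, mem_nthRoots hR]
        exact mul_left_cancel₀ hg₀ e3
      exact (card_le_card e2).trans ((Multiset.toFinset_card_le _).trans
        (card_nthRoots R _)))
  rw [card_erase_of_mem (mem_univ _), card_univ] at e1
  refine e1.trans (Nat.mul_le_mul le_rfl (card_le_card ?_))
  intro ρ hρ
  obtain ⟨y, hy, rfl⟩ := mem_image.1 hρ
  have hy0 : y ≠ 0 := (mem_erase.1 hy).1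
  refine mem_filter.2 ⟨mem_univ _, mul_ne_zero hg₀ (pow_ne_zero _ hy0), ?_⟩
  intro N hN hNR z hz
  obtain ⟨R', rfl⟩ := hNR
  refine hg₀N N hN ((Dvd.intro _ rfl : N ∣ N * R').trans hRF) (z / y ^ R') ?_
  rw [div_pow, hz, ← pow_mul, mul_comm R' N, mul_div_cancel_right₀ _ (pow_ne_zero _ hy0)]

/-- The set `T` of the line. -/
noncomputable def lineT {F : Type} [Field F] [Fintype F] (R : ℕ) {e : ℕ} (x : (Fin e → F) × F) :
    Finset F := by
  classical
  exact univ.filter fun ρ : F => PR R ρ ∧ GoodP R (mF x.1 * (X - C ρ) + C x.2)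

/-- The set of the lines. -/
noncomputable def lineL (F : Type) [Field F] [Fintype F] (p e : ℕ) : Finset ((Fin e → F) × F) := by
  classical
  exact univ.filter fun x : (Fin e → F) × F => ∀ y : F, y ^ p ≠ x.2

theorem mem_lineT {F : Type} [Field F] [Fintype F] {R e : ℕ} {x : (Fin e → F) × F} {ρ : F} :
    ρ ∈ lineT R x ↔ PR R ρ ∧ GoodP R (mF x.1 * (X - C ρ) + C x.2) := by
  classical
  unfold lineT
  rw [mem_filter]
  exact ⟨fun h => h.2, fun h => ⟨mem_univ _, h⟩⟩

theorem mem_lineL {F : Type} [Field F] [Fintype F] {p e : ℕ} {x : (Fin e → F) × F} :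
    x ∈ lineL F p e ↔ ∀ y : F, y ^ p ≠ x.2 := by
  classical
  unfold lineL
  rw [mem_filter]
  exact ⟨fun h => h.2, fun h => ⟨mem_univ _, h⟩⟩

/-- The quotient by `x - ρ`. -/
theorem div_spec {F : Type} [Field F] {e : ℕ} {v : F[X]} (hv : v.Monic) (hd : v.natDegree = e + 1)
    (ρ : F) : v = mF (fun i : Fin e => (v /ₘ (X - C ρ)).coeff i) * (X - C ρ) + C (v.eval ρ) := by
  have h1 : (v /ₘ (X - C ρ)).Monic := by
    unfold Polynomial.Monic
    rw [leadingCoeff_divByMonic_X_sub_C v (by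
      rw [degree_eq_natDegree hv.ne_zero, hd]
      exact_mod_cast (Nat.succ_ne_zero e)) ρ]
    exact hv
  have h2 : (v /ₘ (X - C ρ)).natDegree = e := by
    rw [natDegree_divByMonic v (monic_X_sub_C ρ), hd, natDegree_X_sub_C, Nat.add_sub_cancel]
  rw [mF_of h1 h2]
  have h3 := modByMonic_add_div v (X - C ρ)
  rw [modByMonic_X_sub_C_eq_C_eval] at h3
  conv_lhs => rw [← h3]
  ring

open Classical in
/-- The total number of the elements of the lines. -/
theorem lines_sum {e R p : ℕ} (hp : p.Prime) (hR : Odd R) (hcop : p.Coprime R) :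
    ∃ N₁ : ℕ, ∀ (F : Type) [Field F] [Fintype F], p ∣ Fintype.card F - 1 →
    R ∣ Fintype.card F - 1 → N₁ ≤ Fintype.card F →
    Fintype.card F ^ (e + 2) ≤ 8 * R ^ 2 * (e + 1) * ∑ x ∈ lineL F p e, (lineT R x).card := by
  obtain ⟨N₁, hN₁⟩ := ev_count (d := e + 1) hp (Nat.succ_pos e) hR hcop
  refine ⟨N₁ + 2, ?_⟩
  intro F _ _ hpF hRF hN
  set n := Fintype.card F with hn
  have h1 := pr_count hR.pos F hRF
  set G : Finset ((_ : F) × (Fin (e + 1) → F)) := (univ.filter fun ρ : F => PR R ρ).sigma fun ρ =>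
    univ.filter fun a : Fin (e + 1) → F => GoodP R (mF a) ∧ ∀ y : F, y ^ p ≠ (mF a).eval ρ with hG
  have h2 : (univ.filter fun ρ : F => PR R ρ).card * n ^ (e + 1) ≤ 4 * R * (e + 1) * G.card := by
    rw [hG, card_sigma, Finset.mul_sum, ← smul_eq_mul, ← Finset.sum_const]
    refine Finset.sum_le_sum fun ρ hρ => ?_
    exact hN₁ F hpF hRF (by omega) ρ (mem_filter.1 hρ).2.1
  have h3 : G.card ≤ ∑ x ∈ lineL F p e, (lineT R x).card := by
    rw [← card_sigma]
    refine Finset.card_le_card_of_injOn (fun z =>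
      (⟨((fun i : Fin e => ((mF z.2) /ₘ (X - C z.1)).coeff i), (mF z.2).eval z.1), z.1⟩ :
        (_ : (Fin e → F) × F) × F)) ?_ ?_
    · rintro ⟨ρ, a⟩ hz
      rw [mem_coe, hG, mem_sigma, mem_filter, mem_filter] at hz
      obtain ⟨⟨-, hρ⟩, -, ha, hy⟩ := hz
      rw [mem_coe, mem_sigma, mem_lineL, mem_lineT]
      refine ⟨hy, hρ, ?_⟩
      have := div_spec (e := e) (mF_monic a) (mF_natDegree a) ρ
      dsimp only
      rw [← this]
      exact ha
    · rintro ⟨ρ, a⟩ _ ⟨ρ', a'⟩ _ h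
      simp only [Sigma.mk.injEq, Prod.mk.injEq, heq_eq_eq] at h
      obtain ⟨⟨h4, h5⟩, h6⟩ := h
      have e1 := div_spec (e := e) (mF_monic a) (mF_natDegree a) ρ
      have e2 := div_spec (e := e) (mF_monic a') (mF_natDegree a') ρ'
      rw [h4, h5, h6, ← e2] at e1
      rw [h6, mF_inj e1]
  -- arithmetic
  have h4 : n ≤ 2 * (n - 1) := by omega
  calc n ^ (e + 2) = n * n ^ (e + 1) := by ring
    _ ≤ (2 * (n - 1)) * n ^ (e + 1) := Nat.mul_le_mul h4 le_rfl
    _ ≤ (2 * (R * (univ.filter fun ρ : F => PR R ρ).card)) * n ^ (e + 1) :=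
        Nat.mul_le_mul (Nat.mul_le_mul le_rfl h1) le_rfl
    _ = 2 * R * ((univ.filter fun ρ : F => PR R ρ).card * n ^ (e + 1)) := by ring
    _ ≤ 2 * R * (4 * R * (e + 1) * G.card) := Nat.mul_le_mul le_rfl h2
    _ = 8 * R ^ 2 * (e + 1) * G.card := by ring
    _ ≤ _ := Nat.mul_le_mul le_rfl h3

end Pool.Agent.Y160.T4
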