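import Pool.Agent.Y160.T2.CntN
import Pool.Agent.Y160.T3.IrrCount
import Pool.Agent.H435R3.Weil.Sharp

/-!
# Jacobi sums, and elements of a class modulo `R`-th powers whose translates are not `p`-th powers
-/

set_option autoImplicit false
set_option linter.all false

namespace Pool.Agent.Y160.T4

open Polynomial Finset
open Pool.Agent.H435R3.Weil
open Pool.Agent.Y823.FT2

section jac

variable {L : Type} [Field L] [Fintype L]

theorem jac_norm {ψ χ : MulChar L ℂ} (hψ : ψ ≠ 1) (hχ : χ ≠ 1) (h : ψ * χ ≠ 1) :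
    ‖jacobiSum ψ χ‖ ≤ Real.sqrt (Fintype.card L) := by
  classical
  have hchar : ringChar ℂ ≠ ringChar L := by
    obtain ⟨c, hc⟩ := CharP.exists L
    rw [ringChar.eq_zero]
    intro h0
    have h1 : (Fintype.card L : L) = 0 := Nat.cast_card_eq_zero L
    haveI : CharP L 0 := by rw [h0]; exact ringChar.charP L
    rw [CharP.cast_eq_zero_iff L 0] at h1
    exact Fintype.card_ne_zero (zero_dvd_iff.1 h1)
  have h1 := jacobiSum_mul_jacobiSum_inv hchar hψ hχ h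
  have h2 : jacobiSum ψ⁻¹ χ⁻¹ = (starRingEnd ℂ) (jacobiSum ψ χ) := by
    unfold jacobiSum
    rw [map_sum]
    refine Finset.sum_congr rfl fun x _ => ?_
    rw [map_mul, ← MulChar.star_apply' ψ, ← MulChar.star_apply' χ]
    rfl
  rw [h2, Complex.mul_conj] at h1
  have h3 : Complex.normSq (jacobiSum ψ χ) = (Fintype.card L : ℝ) := by exact_mod_cast h1
  rw [← h3, ← Complex.norm_def]

theorem shift_sum {ψ χ : MulChar L ℂ} (hψ : ψ ≠ 1) (hχ : χ ≠ 1) (h : ψ * χ ≠ 1) {ρ : L}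
    (hρ : ρ ≠ 0) : ‖∑ θ : L, ψ θ * χ (ρ - θ)‖ ≤ Real.sqrt (Fintype.card L) := by
  classical
  have h1 : ∑ θ : L, ψ θ * χ (ρ - θ) = ψ ρ * χ ρ * jacobiSum ψ χ := by
    unfold jacobiSum
    rw [Finset.mul_sum, ← Equiv.sum_comp (Equiv.mulLeft₀ ρ hρ)]
    refine Finset.sum_congr rfl fun x _ => ?_
    have e1 : ρ - ρ * x = ρ * (1 - x) := by ring
    rw [Equiv.mulLeft₀_apply, e1, map_mul, map_mul]
    ring
  rw [h1, norm_mul, norm_mul]
  have h2 := jac_norm hψ hχ h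
  have h3 := WELE.mc_norm_le_one ψ ρ
  have h4 := WELE.mc_norm_le_one χ ρ
  calc ‖ψ ρ‖ * ‖χ ρ‖ * ‖jacobiSum ψ χ‖ ≤ 1 * ‖jacobiSum ψ χ‖ := by
        refine mul_le_mul_of_nonneg_right ?_ (norm_nonneg _)
        exact mul_le_one₀ h3 (norm_nonneg _) h4
    _ ≤ _ := by rw [one_mul]; exact h2

/-- The sum over a class modulo `R`-th powers. -/
theorem class_sum {R p : ℕ} (hR : 0 < R) (hRL : R ∣ Fintype.card L - 1) (hp : p.Prime)
    (hcop : p.Coprime R) {χ : MulChar L ℂ} (hχ : χ ≠ 1) (hχp : χ ^ p = 1) {γ₀ ρ : L} (hγ₀ : γ₀ ≠ 0)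
    (hρ : ρ ≠ 0) (Θ : Finset L) (hΘ : ∀ θ, θ ∈ Θ ↔ ∃ y : L, y ≠ 0 ∧ θ = γ₀ * y ^ R) :
    ‖∑ θ ∈ Θ, χ (ρ - θ)‖ ≤ Real.sqrt (Fintype.card L) + 1 := by
  classical
  obtain ⟨ψ, hψ⟩ := MulChar.exists_mulChar_orderOf L hRL (Complex.isPrimitiveRoot_exp R hR.ne')
  have hψR : ψ ^ R = 1 := by rw [← hψ]; exact pow_orderOf_eq_one ψ
  have hRR : (0 : ℝ) < R := by exact_mod_cast hR
  -- the indicator
  have hin : ∀ θ : L, θ ≠ 0 → ∑ i ∈ range R, (ψ (γ₀⁻¹ * θ)) ^ i = if θ ∈ Θ then (R : ℂ) else 0 := by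
    intro θ hθ
    by_cases h : θ ∈ Θ
    · rw [if_pos h]
      obtain ⟨y, hy0, hy⟩ := (hΘ θ).1 h
      have h2 : ψ (γ₀⁻¹ * θ) = 1 := by
        rw [hy, inv_mul_cancel_left₀ hγ₀, map_pow, ← MulChar.pow_apply' ψ hR.ne', hψR,
          MulChar.one_apply]
        exact isUnit_iff_ne_zero.2 hy0
      simp [h2]
    · rw [if_neg h]
      refine geom_zero ?_ ?_
      · rw [← MulChar.pow_apply' ψ hR.ne', hψR, MulChar.one_apply]
        exact (mul_ne_zero (inv_ne_zero hγ₀) hθ).isUnit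
      · intro h1
        obtain ⟨y, hy0, hy⟩ := pow_of_chi hψ (mul_ne_zero (inv_ne_zero hγ₀) hθ) h1
        exact h ((hΘ θ).2 ⟨y, hy0, by rw [← hy, mul_inv_cancel_left₀ hγ₀]⟩)
  have h0Θ : (0 : L) ∉ Θ := by
    intro h
    obtain ⟨y, hy0, hy⟩ := (hΘ 0).1 h
    exact (mul_ne_zero hγ₀ (pow_ne_zero _ hy0)) hy.symm
  have hin0 : ∑ i ∈ range R, (ψ (γ₀⁻¹ * (0 : L))) ^ i = 1 := by
    have h0 : ψ (γ₀⁻¹ * (0 : L)) = 0 := by rw [mul_zero]; exact MulChar.map_zero ψ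
    rw [h0, Finset.sum_eq_single_of_mem 0 (mem_range.2 hR)]
    · rw [pow_zero]
    · intro i _ hi
      exact zero_pow hi
  have hmain : (R : ℂ) * ∑ θ ∈ Θ, χ (ρ - θ) =
      (∑ i ∈ range R, ∑ θ : L, (ψ (γ₀⁻¹ * θ)) ^ i * χ (ρ - θ)) - χ ρ := by
    rw [Finset.sum_comm]
    have e1 : ∀ θ : L, ∑ i ∈ range R, (ψ (γ₀⁻¹ * θ)) ^ i * χ (ρ - θ) =
        (if θ ∈ Θ then (R : ℂ) * χ (ρ - θ) else 0) + (if θ = 0 then χ ρ else 0) := by
      intro θ
      rw [← Finset.sum_mul]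
      by_cases h : θ = 0
      · subst h
        rw [hin0, if_neg h0Θ, if_pos rfl, one_mul, sub_zero, zero_add]
      · rw [hin θ h, if_neg h, add_zero, ite_mul, zero_mul]
    rw [Finset.sum_congr rfl fun θ _ => e1 θ, Finset.sum_add_distrib, Finset.sum_ite_eq',
      if_pos (Finset.mem_univ _), add_sub_cancel_right, ← Finset.sum_filter, Finset.filter_mem_eq_inter,
      Finset.univ_inter, Finset.mul_sum]
  have hterm : ∀ i ∈ range R, ‖∑ θ : L, (ψ (γ₀⁻¹ * θ)) ^ i * χ (ρ - θ)‖ ≤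
      Real.sqrt (Fintype.card L) := by
    intro i hi
    rcases Nat.eq_zero_or_pos i with h | h
    · subst h
      have e2 : ∑ θ : L, (ψ (γ₀⁻¹ * θ)) ^ 0 * χ (ρ - θ) = 0 := by
        simp only [pow_zero, one_mul]
        rw [← Equiv.sum_comp (Equiv.subLeft ρ)]
        simp only [Equiv.subLeft_apply, sub_sub_cancel]
        exact MulChar.sum_eq_zero_of_ne_one hχ
      rw [e2, norm_zero]
      exact Real.sqrt_nonneg _
    · have hψi : ψ ^ i ≠ 1 := by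
        intro h0
        have h1 := orderOf_dvd_of_pow_eq_one h0
        rw [hψ] at h1
        have h2 := Nat.le_of_dvd h h1
        have h3 := mem_range.1 hi
        omega
      have hprod : ψ ^ i * χ ≠ 1 := by
        intro h0
        have h1 : χ ^ R = 1 := by
          have h2 : (ψ ^ i * χ) ^ R = 1 := by rw [h0, one_pow]
          rw [mul_pow, ← pow_mul, mul_comm i R, pow_mul, hψR, one_pow, one_mul] at h2
          exact h2
        have h3 : orderOf χ ∣ p := orderOf_dvd_of_pow_eq_one hχp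
        have h4 : orderOf χ ∣ R := orderOf_dvd_of_pow_eq_one h1
        have h5 : orderOf χ ∣ 1 := by
          have := Nat.dvd_gcd h3 h4
          rwa [hcop.gcd_eq_one] at this
        exact hχ (orderOf_eq_one_iff.1 (Nat.dvd_one.1 h5))
      have e2 : ∑ θ : L, (ψ (γ₀⁻¹ * θ)) ^ i * χ (ρ - θ) =
          (ψ γ₀⁻¹) ^ i * ∑ θ : L, (ψ ^ i) θ * χ (ρ - θ) := by
        rw [Finset.mul_sum]
        refine Finset.sum_congr rfl fun θ _ => ?_
        rw [MulChar.pow_apply' ψ h.ne', map_mul, mul_pow]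
        ring
      rw [e2, norm_mul, norm_pow]
      calc ‖ψ γ₀⁻¹‖ ^ i * ‖∑ θ : L, (ψ ^ i) θ * χ (ρ - θ)‖ ≤
          1 * ‖∑ θ : L, (ψ ^ i) θ * χ (ρ - θ)‖ := by
            refine mul_le_mul_of_nonneg_right ?_ (norm_nonneg _)
            exact pow_le_one₀ (norm_nonneg _) (WELE.mc_norm_le_one ψ _)
        _ ≤ _ := by rw [one_mul]; exact shift_sum hψi hχ hprod hρ
  have h5 : (R : ℝ) * ‖∑ θ ∈ Θ, χ (ρ - θ)‖ ≤ R * Real.sqrt (Fintype.card L) + 1 := by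
    have e3 : (R : ℝ) * ‖∑ θ ∈ Θ, χ (ρ - θ)‖ = ‖(R : ℂ) * ∑ θ ∈ Θ, χ (ρ - θ)‖ := by
      rw [norm_mul, Complex.norm_natCast]
    rw [e3, hmain]
    refine (norm_sub_le _ _).trans (add_le_add ((norm_sum_le _ _).trans
      ((Finset.sum_le_sum hterm).trans ?_)) (WELE.mc_norm_le_one χ _))
    rw [Finset.sum_const, card_range, nsmul_eq_mul]
  have h6 : (1 : ℝ) ≤ R := by exact_mod_cast hR
  have h7 : (R : ℝ) * ‖∑ θ ∈ Θ, χ (ρ - θ)‖ ≤ R * (Real.sqrt (Fintype.card L) + 1) := by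
    rw [mul_add, mul_one]; linarith
  exact le_of_mul_le_mul_left h7 hRR

/-- The number of the elements of the class with nontrivial symbol. -/
theorem class_card {R p : ℕ} (hR : 0 < R) (hRL : R ∣ Fintype.card L - 1) (hp : p.Prime)
    (hcop : p.Coprime R) {χ : MulChar L ℂ} (hχ : χ ≠ 1) (hχp : χ ^ p = 1) {γ₀ ρ : L} (hγ₀ : γ₀ ≠ 0)
    (hρ : ρ ≠ 0) (Θ : Finset L) (hΘ : ∀ θ, θ ∈ Θ ↔ ∃ y : L, y ≠ 0 ∧ θ = γ₀ * y ^ R)
    (Θ' : Finset L) (hΘ' : ∀ θ ∈ Θ, χ (ρ - θ) ≠ 1 → θ ∈ Θ') :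
    (Θ.card : ℝ) - Real.sqrt (Fintype.card L) - 1 ≤ 2 * Θ'.card := by
  classical
  have h1 := class_sum hR hRL hp hcop hχ hχp hγ₀ hρ Θ hΘ
  have h2 : ∑ θ ∈ Θ, (χ (ρ - θ)).re ≤ Real.sqrt (Fintype.card L) + 1 := by
    rw [← Complex.re_sum]
    exact (Complex.re_le_norm _).trans h1
  have h3 : ∀ θ ∈ Θ, (1 : ℝ) - 2 * (if χ (ρ - θ) = 1 then 0 else 1) ≤ (χ (ρ - θ)).re := by
    intro θ _
    split_ifs with h
    · rw [h]; simp
    · have h4 := WELE.mc_norm_le_one χ (ρ - θ)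
      have h5 := (abs_le.1 ((Complex.abs_re_le_norm (χ (ρ - θ))).trans h4)).1
      linarith
  have h4 := (Finset.sum_le_sum h3).trans h2
  rw [Finset.sum_sub_distrib, ← Finset.mul_sum, Finset.sum_const, nsmul_eq_mul, mul_one] at h4
  have h5 : ∑ θ ∈ Θ, (if χ (ρ - θ) = 1 then (0 : ℝ) else 1) ≤ Θ'.card := by
    have e1 : ∑ θ ∈ Θ, (if χ (ρ - θ) = 1 then (0 : ℝ) else 1) =
        ∑ θ ∈ Θ, (if ¬ χ (ρ - θ) = 1 then (1 : ℝ) else 0) := by
      refine Finset.sum_congr rfl fun θ _ => ?_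
      by_cases h : χ (ρ - θ) = 1 <;> simp [h]
    rw [e1, Finset.sum_boole]
    have e2 : (Θ.filter fun θ => ¬ χ (ρ - θ) = 1) ⊆ Θ' := by
      intro θ hθ
      obtain ⟨a, b⟩ := mem_filter.1 hθ
      exact hΘ' θ a b
    exact_mod_cast card_le_card e2
  linarith

end jac

end Pool.Agent.Y160.T4
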