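import Pool.Agent.Y160.T4.Pt
import Pool.Agent.Y160.T2.Sieve

/-!
# The Tate conjecture for almost all surfaces `w ^ q = (x ^ M - ρ) u(x ^ M) + (β + c t ^ (p ^ d)) ^ q`
-/

set_option autoImplicit false
set_option linter.all false

open Polynomial Filter Topology

namespace Pool.Agent.Y160.T4

open Pool.Agent.TH115.GD (IsTower)
open Pool.Agent.Y160.SL (linU linE linG linH linSurf LinConcl LinWorks towSurf IrrMod SepMod GenConcl
  RedConcl overField)
open Pool.Agent.Y160.T2 (vs res to_int prim_red embed_ex sieve)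
open Pool.Agent.Y160.T3 (GoodP mF mF_of mF_monic mF_natDegree irr_expand towSurf_map place_R)

section prime

variable {P : ℕ} [hP : Fact P.Prime]

/-- Hensel's lemma for a simple zero modulo `P`. -/
theorem hensel_ex {h : ℤ[X]} {γ : ZMod P} (h0 : (h.map (Int.castRingHom (ZMod P))).eval γ = 0)
    (h1 : (h.map (Int.castRingHom (ZMod P))).derivative.eval γ ≠ 0) :
    ∃ x : ℚ_[P], aeval x h = 0 := by
  obtain ⟨a, ha⟩ := ZMod.intCast_surjective γ
  have hto : ∀ x : ℤ, PadicInt.toZMod ((x : ℤ) : ℤ_[P]) = (x : ZMod P) := fun x => map_intCast _ x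
  have hnorm : ∀ y : ℤ_[P], ‖y‖ < 1 ↔ PadicInt.toZMod y = 0 := by
    intro y
    rw [← PadicInt.mem_nonunits, ← RingHom.mem_ker, PadicInt.ker_toZMod]
    rfl
  have hev : ∀ f : ℤ[X], PadicInt.toZMod (aeval ((a : ℤ) : ℤ_[P]) f) =
      (f.map (Int.castRingHom (ZMod P))).eval γ := by
    intro f
    have e1 : aeval ((a : ℤ) : ℤ_[P]) f = ((f.eval a : ℤ) : ℤ_[P]) := by
      rw [aeval_def, algebraMap_int_eq, ← eq_intCast (Int.castRingHom ℤ_[P]) a, eval₂_at_apply,
        eq_intCast]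
    rw [e1, hto, ← ha, ← eq_intCast (Int.castRingHom (ZMod P)) a, eval_map_apply, eq_intCast]
  obtain ⟨x, hx, -⟩ := hensels_lemma (p := P) (R := ℤ) (F := h) (a := ((a : ℤ) : ℤ_[P])) (by
    have e1 : ‖aeval ((a : ℤ) : ℤ_[P]) h‖ < 1 := by rw [hnorm, hev, h0]
    have e2 : ‖aeval ((a : ℤ) : ℤ_[P]) (derivative h)‖ = 1 := by
      refine le_antisymm (PadicInt.norm_le_one _) (not_lt.1 fun h2 => ?_)
      rw [hnorm, hev, ← derivative_map] at h2
      exact h1 h2
    rw [e2, one_pow]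
    exact e1)
  refine ⟨(x : ℚ_[P]), ?_⟩
  have e3 : aeval (x : ℚ_[P]) h = ((aeval x h : ℤ_[P]) : ℚ_[P]) := by
    have := map_aeval_eq_aeval_map (S := ℤ_[P]) (T := ℤ) (U := ℚ_[P]) (φ := RingHom.id ℤ)
      (ψ := PadicInt.Coe.ringHom) (RingHom.ext_int _ _) h x
    rw [Polynomial.map_id] at this
    exact this.symm
  rw [e3, hx, PadicInt.coe_zero]

theorem lin_concl {p q s n R : ℕ} (hp : p.Prime) (hq : q = p ^ (s + 1)) (hcop : p.Coprime (n + 1))
    (hn : 2 ≤ n) (hR : Odd R) (hpR : p.Coprime R) {ζb : ZMod P} (hζb : IsPrimitiveRoot ζb q)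
    (hneg : ∃ y : ZMod P, y ^ p = -1)
    (hne : ((q * (n + 1) * R : ℕ) : ZMod P) ≠ 0) {v : Fin (n + 3) → ℤ}
    (hc : linE n (fun i => (v i : ZMod P)) 2 ≠ 0)
    (hg : GoodV p q R (linE n (fun i => (v i : ZMod P)) 0) (linE n (fun i => (v i : ZMod P)) 1)
      (linU n (fun i => (v i : ZMod P)))) :
    LinConcl p q n R v P := by
  have hc' : ((linE n v 2 : ℤ) : ZMod P) ≠ 0 := hc
  have hMp : ∀ M e : ℕ, M ∣ R ^ e → Odd M ∧ 0 < M ∧ p.Coprime M ∧ ∀ N : ℕ, N.Prime → N ∣ M → N ∣ R := by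
    intro M e hMe
    have h1 : Odd M := hR.pow.of_dvd_nat hMe
    exact ⟨h1, h1.pos, (hpR.pow_right e).coprime_dvd_right hMe,
      fun N hN hNM => hN.dvd_of_dvd_pow (hNM.trans hMe)⟩
  have eU : (linU n v).map (Int.castRingHom (ZMod P)) = linU n (fun i => (v i : ZMod P)) :=
    linU_map _ v
  have eG : (linG n v).map (Int.castRingHom (ZMod P)) = linG n (fun i => (v i : ZMod P)) :=
    linG_map _ v
  have eH : (linH q n v).map (Int.castRingHom (ZMod P)) = linH q n (fun i => (v i : ZMod P)) :=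
    linH_map _ v q
  -- the surface over a field
  have hsurf : ∀ (E : Type) [Field E] (d M : ℕ),
      (linSurf q n M (p ^ d) v).map (mapRingHom (Int.castRingHom E)) =
      ((expand E M ((X - C ((linE n v 0 : ℤ) : E)) * linU n (fun i => (v i : E)))).map C +
        ((C ((linE n v 1 : ℤ) : E)).map C + C (C ((linE n v 2 : ℤ) : E) * X ^ (p ^ d))) ^ q) := by
    intro E _ d M
    unfold linSurf
    rw [towSurf_map, map_expand, linG_map, expand_C, Polynomial.map_C]
    rfl
  have hdeg : ∀ (E : Type) [Field E], (linU n (fun i => (v i : E))).natDegree = n := fun E _ =>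
    linU_natDegree _
  obtain ⟨γ, w₀, hw₀, hd₀, hw₀g, hγ, hT, hid⟩ := hg.ex
  have hd₀' : w₀.natDegree = n := by rw [hd₀, linU_natDegree]
  refine ⟨⟨hne, hc'⟩, ?_, ?_, ?_, ?_, ?_⟩
  · intro M e hMe
    obtain ⟨h1, h2, h3, h4⟩ := hMp M e hMe
    obtain ⟨γ', w', D⟩ := pt_fin hp (linU_monic _) hg hneg h1 h4
    refine ⟨?_, ?_⟩
    · unfold IrrMod
      rw [map_expand, Polynomial.map_sub, Polynomial.map_X, Polynomial.map_C]
      exact D.i₁
    · unfold IrrMod
      rw [map_expand, eU]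
      exact D.i₂
  · intro M e hMe
    obtain ⟨h1, h2, h3, h4⟩ := hMp M e hMe
    obtain ⟨γ', w', D⟩ := pt_fin hp (linU_monic _) hg hneg h1 h4
    have T := mkTwo hp h3 D
    have hne' : M ≠ (linU n (fun i => (v i : ZMod P))).natDegree * M := by
      rw [hdeg]
      intro h
      have : 2 * M ≤ n * M := Nat.mul_le_mul hn le_rfl
      omega
    have hsep : ∀ {A B : (ZMod P)[X]}, A.Monic → B.Monic → Irreducible A → Irreducible B →
        A.natDegree = M → B.natDegree = (linU n (fun i => (v i : ZMod P))).natDegree * M →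
        (A * B).Separable := by
      intro A B hAm hBm hA hB h1 h2
      refine (PerfectField.separable_of_irreducible hA).mul
        (PerfectField.separable_of_irreducible hB) ?_
      exact (hA.coprime_iff_not_dvd).2 (ndvd_of_deg hA hB hAm hBm (by rw [h1, h2]; exact hne'))
    refine ⟨?_, ?_⟩
    · unfold SepMod
      rw [map_expand, eG]
      have h5 := hsep T.m₁ T.m₂ T.i₁ T.i₂ T.d₁ T.d₂
      rw [← map_mul] at h5
      exact h5
    · unfold SepMod
      rw [map_expand, eH]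
      have h5 := hsep T.n₁ T.n₂ T.j₁ T.j₂ T.e₁ T.e₂
      rw [← T.id, ← map_mul] at h5
      have h6 : expand (ZMod P) M (linH q n (fun i => (v i : ZMod P))) =
          expand (ZMod P) M ((X - C (linE n (fun i => (v i : ZMod P)) 0)) *
            linU n (fun i => (v i : ZMod P))) + C (linE n (fun i => (v i : ZMod P)) 1 ^ q) := by
        unfold linH
        rw [map_add, expand_C]
        rfl
      rw [h6]
      exact h5
  · refine hensel_ex (γ := γ) ?_ ?_
    · rw [eH]
      show (linG n (fun i => (v i : ZMod P)) + C (linE n (fun i => (v i : ZMod P)) 1 ^ q)).eval γ = 0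
      have h1 : linG n (fun i => (v i : ZMod P)) + C (linE n (fun i => (v i : ZMod P)) 1 ^ q) =
        (X - C γ) * w₀ := hid
      rw [h1, eval_mul, eval_sub, eval_X, eval_C, sub_self, zero_mul]
    · rw [eH]
      have h1 : linH q n (fun i => (v i : ZMod P)) = (X - C γ) * w₀ := hid
      rw [h1, derivative_mul, derivative_X_sub_C, one_mul, eval_add, eval_mul, eval_sub, eval_X,
        eval_C, sub_self, zero_mul, add_zero]
      intro h2
      have h3 := degree_eq_one_of_irreducible_of_root hw₀g.1 h2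
      rw [degree_eq_natDegree hw₀.ne_zero, hd₀'] at h3
      have h4 : n = 1 := by exact_mod_cast h3
      omega
  · intro E _ ζ η x hζ hη hx hσ d M e hd hMe k'' K L _ _ _ _ _ _ _ _ _ hT'
    obtain ⟨σ⟩ := hσ
    haveI : CharZero E := ⟨fun a b h => by
      have h0 := congrArg σ h
      rw [map_natCast, map_natCast] at h0
      exact_mod_cast h0⟩
    obtain ⟨h1, h2, h3, h4⟩ := hMp M e hMe
    obtain ⟨w, D⟩ := pt_E σ hp hn hg hη hx h1 h4
    have hcE : ((linE n v 2 : ℤ) : E) ≠ 0 := by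
      intro h0
      apply hc'
      have : linE n v 2 = 0 := by exact_mod_cast h0
      rw [this, Int.cast_zero]
    have h6 := conclT2 (k' := k'') (K := K) (F := L) hp hq hζ h3 (by rw [hdeg]; exact hcop)
      (by rw [hdeg]; exact hn) D hcE hd hT'
    unfold overField
    rw [hsurf]
    exact h6
  · intro d M e hd hMe K _ _ _
    obtain ⟨h1, h2, h3, h4⟩ := hMp M e hMe
    obtain ⟨γ', w', D⟩ := pt_fin hp (linU_monic _) hg hneg h1 h4
    have h6 := shaT2 hp hq hζb h3 (by rw [hdeg]; exact hcop) (by rw [hdeg]; exact hn) D hc' hd K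
    unfold overField
    rw [hsurf]
    exact h6

end prime

theorem every {p s n R : ℕ} (hp : p.Prime) (hn : 2 ≤ n) (hcop : p.Coprime (n + 1)) (hR : Odd R)
    (hpR : p.Coprime R) (k : Type) [Field k] [NumberField k] {ζ : k}
    (hζ : IsPrimitiveRoot ζ (p ^ (s + 1))) :
    Tendsto (fun H : ℕ => (({v : Fin (n + 3) → ℤ | (∀ i, |v i| ≤ (H : ℤ)) ∧
      ¬ LinWorks p (p ^ (s + 1)) n R k v}.ncard : ℕ) : ℝ) /
        (2 * (H : ℝ) + 1) ^ (n + 3)) atTop (𝓝 0) := by
  classical
  obtain ⟨e, rfl⟩ : ∃ e, n = e + 1 := ⟨n - 1, by omega⟩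
  set q := p ^ (s + 1) with hq
  have hq0 : 0 < q := by rw [hq]; exact Nat.pow_pos hp.pos
  have hR0 : 0 < R := hR.pos
  obtain ⟨N₃, hN₃⟩ := vec_count (e := e) (s := s) hp hR hpR
  have hD : 0 < 4 * (8 * R ^ 2 * (e + 1)) ^ 2 * q ^ 2 * (e + 2) := by positivity
  refine sieve hD {v : Fin (e + 1 + 3) → ℤ | ¬ LinWorks p q (e + 1) R k v} fun B => ?_
  obtain ⟨P, hP, hPB, ⟨σ⟩, hRP⟩ := place_R k (R := 2 * p * R)
    (Nat.mul_pos (Nat.mul_pos two_pos hp.pos) hR0) (B + q * (e + 1 + 1) * R + N₃ + 2)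
  have hne : ((q * (e + 1 + 1) * R : ℕ) : ZMod P) ≠ 0 := by
    intro h0
    rw [ZMod.natCast_eq_zero_iff] at h0
    have := Nat.le_of_dvd (by positivity) h0
    omega
  have hqP : ((q : ℕ) : ZMod P) ≠ 0 := by
    intro h0
    apply hne
    rw [Nat.cast_mul, Nat.cast_mul, h0, zero_mul, zero_mul]
  have hcoe : Function.Injective (PadicInt.Coe.ringHom (p := P)) := fun a b h => PadicInt.ext h
  obtain ⟨ζ', hζ'⟩ := to_int σ (x := ζ) (IsIntegral.of_pow hq0 (by
    rw [hζ.pow_eq_one]; exact isIntegral_one))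
  have h2 : IsPrimitiveRoot ζ' q := by
    have h3 : IsPrimitiveRoot (σ ζ) q := hζ.map_of_injective σ.injective
    rw [← hζ'] at h3
    exact IsPrimitiveRoot.of_map_of_injective (f := PadicInt.Coe.ringHom (p := P)) h3 hcoe
  have hζb : IsPrimitiveRoot (PadicInt.toZMod ζ') q := prim_red _ hqP h2
  haveI : Fintype (ZMod P) := ZMod.fintype P
  have hcard : Fintype.card (ZMod P) = P := ZMod.card P
  have hqP1 : q ∣ P - 1 := hζb.dvd_of_pow_eq_one _ (ZMod.pow_card_sub_one_eq_one
    (hζb.ne_zero hq0.ne'))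
  -- a `p`-th root of `-1`
  have hneg : ∃ y : ZMod P, y ^ p = -1 := by
    obtain ⟨g, hg⟩ := IsCyclic.exists_generator (α := (ZMod P)ˣ)
    have h2p : 2 * p ∣ P - 1 := (Dvd.intro _ rfl).trans hRP
    obtain ⟨t, ht⟩ := h2p
    have hord : orderOf g = P - 1 := by
      rw [orderOf_eq_card_of_forall_mem_zpowers hg, Nat.card_units, Nat.card_eq_fintype_card, hcard]
    have hP1 : 0 < P - 1 := by omega
    have ht0 : 0 < t := by
      rcases Nat.eq_zero_or_pos t with h | h
      · rw [h, mul_zero] at ht; omega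
      · exact h
    refine ⟨((g ^ t : (ZMod P)ˣ) : ZMod P), ?_⟩
    have e1 : ((g ^ t) ^ p) ^ 2 = 1 := by
      rw [← pow_mul, ← pow_mul]
      have : t * (p * 2) = orderOf g := by rw [hord, ht]; ring
      rw [this, pow_orderOf_eq_one]
    have e2 : (g ^ t) ^ p ≠ 1 := by
      rw [← pow_mul]
      intro h0
      have h3 := orderOf_dvd_of_pow_eq_one h0
      rw [hord, ht] at h3
      have h4 := Nat.le_of_dvd (Nat.mul_pos ht0 hp.pos) h3
      have h5 : 0 < t * p := Nat.mul_pos ht0 hp.pos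
      have h6 : 2 * p * t = 2 * (t * p) := by ring
      omega
    have e3 : (((g ^ t : (ZMod P)ˣ) : ZMod P) ^ p) ^ 2 = 1 := by
      have := congrArg Units.val e1
      simpa using this
    rcases mul_self_eq_one_iff.1 ((sq _).symm.trans e3) with h | h
    · exfalso
      apply e2
      apply Units.ext
      simpa using h
    · exact h
  set S : Finset (Fin (e + 1 + 3) → ZMod P) := Finset.univ.filter fun v =>
    v (Fin.natAdd (e + 1) 2) ≠ 0 ∧
      GoodV p q R (v (Fin.natAdd (e + 1) 0)) (v (Fin.natAdd (e + 1) 1))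
        (mF fun i : Fin (e + 1) => v (Fin.castAdd 3 i)) with hS
  refine ⟨P, by omega, hP.out, S, ?_, ?_⟩
  · have h := hN₃ (ZMod P) (by rw [hcard]; exact hqP1)
      (by rw [hcard]; exact (Dvd.intro_left _ rfl).trans hRP) (by rw [hcard]; omega) hneg S
      (fun w h1 h2 => by
        rw [hS, Finset.mem_filter]
        exact ⟨Finset.mem_univ _, h1, h2⟩)
    rwa [hcard] at h
  · intro v hv hmem
    rw [hS, Finset.mem_filter] at hmem
    obtain ⟨-, h1, h2⟩ := hmem
    exact hv ⟨P, hP, ⟨σ⟩, lin_concl hp hq hcop hn hR hpR hζb hneg hne h1 h2⟩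

end Pool.Agent.Y160.T4
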