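import Mathlib

/-!
# Norms of polynomials modulo monic polynomials
-/

set_option autoImplicit false
set_option linter.all false

open Polynomial

namespace Pool.Agent.Y160.T4

variable {E : Type} [Field E]

/-- The norm of `A` modulo the monic polynomial `f`. -/
noncomputable def Nn (f A : E[X]) : E := resultant f A

theorem nn_spec {f : E[X]} (hf : f.Monic) (A : E[X]) :
    algebraMap E (AlgebraicClosure E) (Nn f A) =
      ((f.map (algebraMap E (AlgebraicClosure E))).roots.map fun α =>
        (A.map (algebraMap E (AlgebraicClosure E))).eval α).prod := by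
  have h1 := resultant_map_map f A f.natDegree A.natDegree (algebraMap E (AlgebraicClosure E))
  unfold Nn
  rw [← h1]
  have h2 := resultant_eq_prod_eval (f.map (algebraMap E (AlgebraicClosure E)))
    (A.map (algebraMap E (AlgebraicClosure E))) A.natDegree natDegree_map_le
    (IsAlgClosed.splits _)
  rw [natDegree_map] at h2
  rw [h2, (hf.map _).leadingCoeff, one_pow, one_mul]

theorem nn_mul {f : E[X]} (hf : f.Monic) (A B : E[X]) : Nn f (A * B) = Nn f A * Nn f B := by
  apply (algebraMap E (AlgebraicClosure E)).injective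
  rw [map_mul, nn_spec hf, nn_spec hf, nn_spec hf, ← Multiset.prod_map_mul]
  simp only [Polynomial.map_mul, eval_mul]

theorem nn_pow {f : E[X]} (hf : f.Monic) (A : E[X]) (n : ℕ) : Nn f (A ^ n) = Nn f A ^ n := by
  apply (algebraMap E (AlgebraicClosure E)).injective
  rw [map_pow, nn_spec hf, nn_spec hf, ← Multiset.prod_map_pow]
  simp only [Polynomial.map_pow, eval_pow]

theorem nn_C {f : E[X]} (hf : f.Monic) (c : E) : Nn f (C c) = c ^ f.natDegree := by
  apply (algebraMap E (AlgebraicClosure E)).injective
  rw [map_pow, nn_spec hf]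
  simp only [Polynomial.map_C, eval_C, Multiset.map_const', Multiset.prod_replicate]
  congr 1
  rw [← (IsAlgClosed.splits (f.map (algebraMap E (AlgebraicClosure E)))).natDegree_eq_card_roots,
    natDegree_map]

theorem nn_congr {f A B : E[X]} (hf : f.Monic) (h : f ∣ A - B) : Nn f A = Nn f B := by
  apply (algebraMap E (AlgebraicClosure E)).injective
  rw [nn_spec hf, nn_spec hf]
  congr 1
  refine Multiset.map_congr rfl fun α hα => ?_
  obtain ⟨u, hu⟩ := h
  have h1 : A = B + f * u := by rw [← hu]; ring
  have h2 : (f.map (algebraMap E (AlgebraicClosure E))).eval α = 0 :=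
    (mem_roots'.1 hα).2
  rw [h1, Polynomial.map_add, Polynomial.map_mul, eval_add, eval_mul, h2, zero_mul, add_zero]

theorem nn_mul_left {f g : E[X]} (hf : f.Monic) (hg : g.Monic) (A : E[X]) :
    Nn (f * g) A = Nn f A * Nn g A := by
  apply (algebraMap E (AlgebraicClosure E)).injective
  rw [map_mul, nn_spec (hf.mul hg), nn_spec hf, nn_spec hg, Polynomial.map_mul,
    roots_mul (mul_ne_zero (hf.map _).ne_zero (hg.map _).ne_zero), Multiset.map_add,
    Multiset.prod_add]

theorem nn_symm (f g : E[X]) : Nn f g = (-1) ^ (f.natDegree * g.natDegree) * Nn g f :=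
  resultant_comm _ _ _ _

theorem nn_ne_zero {f A : E[X]} (hf : f.Monic) (h : IsCoprime f A) : Nn f A ≠ 0 :=
  resultant_ne_zero f A h

end Pool.Agent.Y160.T4
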