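import Pool.Agent.Y160.T4.Gp

/-!
# Counting the good vectors
-/

set_option autoImplicit false
set_option linter.all false

namespace Pool.Agent.Y160.T4

open Polynomial Finset
open Pool.Agent.Y160.T3 (gen_ex GoodP mF mF_of mF_monic mF_natDegree mF_inj)
open Pool.Agent.Y232.FT2 (R)

open Classical in
/-- The set of the pairs on the lines. -/
noncomputable def WW (F : Type) [Field F] [Fintype F] (p q R₀ e : ℕ) (ω : F) :
    Finset ((_ : (Fin e → F) × F) × (F × F)) :=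
  (lineL F p e).sigma fun x => (lineT R₀ x ×ˢ lineT R₀ x).filter fun z =>
    R q (x.2 * (z.1 - z.2)) 1 ∧ R q ((mF x.1).eval z.1 * (z.1 - z.2) + x.2) ω

theorem w_count {e R₀ p s : ℕ} (hp : p.Prime) (hR : Odd R₀) (hcop : p.Coprime R₀) :
    ∃ N₂ : ℕ, ∀ (F : Type) [Field F] [Fintype F], p ^ (s + 1) ∣ Fintype.card F - 1 →
    R₀ ∣ Fintype.card F - 1 → N₂ ≤ Fintype.card F → ∀ ω : F, ω ≠ 0 →
    Fintype.card F ^ (e + 3) ≤ 2 * (8 * R₀ ^ 2 * (e + 1)) ^ 2 * (p ^ (s + 1)) ^ 2 *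
      (WW F p (p ^ (s + 1)) R₀ e ω).card := by
  classical
  set q := p ^ (s + 1) with hq
  have hq0 : 0 < q := by rw [hq]; exact Nat.pow_pos hp.pos
  have hR0 : 0 < R₀ := hR.pos
  set c₁ := 8 * R₀ ^ 2 * (e + 1) with hc₁
  have hc₁0 : 0 < c₁ := by positivity
  obtain ⟨N₁, hN₁⟩ := lines_sum (e := e) hp hR hcop
  have hqR : (0 : ℝ) < q := by exact_mod_cast hq0
  have hcR : (0 : ℝ) < c₁ := by exact_mod_cast hc₁0
  obtain ⟨N₀, hN₀⟩ := bil p s e hp (ε := 1 / (2 * (c₁ : ℝ) ^ 2 * (q : ℝ) ^ 2)) (by positivity)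
  refine ⟨N₀ + N₁, ?_⟩
  intro F _ _ hqF hRF hN ω hω
  set n := Fintype.card F with hn
  have hn1 : 0 < n := Fintype.card_pos
  have hnR : (0 : ℝ) < n := by exact_mod_cast hn1
  have h1 := hN₁ F ((dvd_pow_self p (Nat.succ_ne_zero s)).trans hqF) hRF (by omega)
  set Λ := lineL F p e with hΛ
  have hΛc : Λ.card ≤ n ^ (e + 1) := by
    refine (card_le_univ _).trans ?_
    rw [Fintype.card_prod, Fintype.card_fun, Fintype.card_fin, ← hn, pow_succ]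
  -- every line
  have h2 : ∀ x ∈ Λ, 1 / (q : ℝ) ^ 2 * ((lineT R₀ x).card : ℝ) ^ 2 -
      1 / (2 * (c₁ : ℝ) ^ 2 * (q : ℝ) ^ 2) * (n : ℝ) ^ 2 ≤
      (((lineT R₀ x ×ˢ lineT R₀ x).filter fun z => R q (x.2 * (z.1 - z.2)) 1 ∧
        R q ((mF x.1).eval z.1 * (z.1 - z.2) + x.2) ω).card : ℝ) := by
    intro x hx
    have hx2 : x.2 ≠ 0 := by
      intro h0
      exact mem_lineL.1 hx 0 (by rw [h0, zero_pow hp.ne_zero])
    exact hN₀ F hqF (by omega) (mF x.1) x.2 ω (lineT R₀ x) (mF_monic x.1).ne_zero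
      (mF_natDegree x.1).le hx2 hω
  have h3 := Finset.sum_le_sum h2
  have h4 : ((WW F p q R₀ e ω).card : ℝ) = ∑ x ∈ Λ, (((lineT R₀ x ×ˢ lineT R₀ x).filter fun z =>
      R q (x.2 * (z.1 - z.2)) 1 ∧ R q ((mF x.1).eval z.1 * (z.1 - z.2) + x.2) ω).card : ℝ) := by
    unfold WW
    rw [card_sigma]
    push_cast
    rfl
  rw [← h4, Finset.sum_sub_distrib, Finset.sum_const, nsmul_eq_mul, ← Finset.mul_sum] at h3
  have h5 : (∑ x ∈ Λ, ((lineT R₀ x).card : ℝ)) ^ 2 ≤ Λ.card * ∑ x ∈ Λ, ((lineT R₀ x).card : ℝ) ^ 2 :=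
    sq_sum_le_card_mul_sum_sq
  have h6 : (n : ℝ) ^ (e + 2) ≤ c₁ * ∑ x ∈ Λ, ((lineT R₀ x).card : ℝ) := by
    have h7 : ((n ^ (e + 2) : ℕ) : ℝ) ≤ ((c₁ * ∑ x ∈ Λ, (lineT R₀ x).card : ℕ) : ℝ) := by
      exact_mod_cast h1
    push_cast at h7
    exact h7
  set Y := ∑ x ∈ Λ, ((lineT R₀ x).card : ℝ) ^ 2 with hY
  have hY0 : 0 ≤ Y := Finset.sum_nonneg fun _ _ => sq_nonneg _
  have hΛR : (Λ.card : ℝ) ≤ (n : ℝ) ^ (e + 1) := by exact_mod_cast hΛc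
  have h8 : (n : ℝ) ^ (e + 3) ≤ (c₁ : ℝ) ^ 2 * Y := by
    have h9 : ((n : ℝ) ^ (e + 2)) ^ 2 ≤ (c₁ : ℝ) ^ 2 * ((n : ℝ) ^ (e + 1) * Y) := by
      calc ((n : ℝ) ^ (e + 2)) ^ 2 ≤ (c₁ * ∑ x ∈ Λ, ((lineT R₀ x).card : ℝ)) ^ 2 :=
            pow_le_pow_left₀ (by positivity) h6 2
        _ = (c₁ : ℝ) ^ 2 * (∑ x ∈ Λ, ((lineT R₀ x).card : ℝ)) ^ 2 := by ring
        _ ≤ (c₁ : ℝ) ^ 2 * (Λ.card * Y) := mul_le_mul_of_nonneg_left h5 (by positivity)
        _ ≤ (c₁ : ℝ) ^ 2 * ((n : ℝ) ^ (e + 1) * Y) :=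
            mul_le_mul_of_nonneg_left (mul_le_mul_of_nonneg_right hΛR hY0) (by positivity)
    have h10 : (n : ℝ) ^ (e + 1) * (n : ℝ) ^ (e + 3) ≤ (n : ℝ) ^ (e + 1) * ((c₁ : ℝ) ^ 2 * Y) := by
      calc (n : ℝ) ^ (e + 1) * (n : ℝ) ^ (e + 3) = ((n : ℝ) ^ (e + 2)) ^ 2 := by ring
        _ ≤ _ := h9
        _ = _ := by ring
    exact le_of_mul_le_mul_left h10 (by positivity)
  have h11 : (Λ.card : ℝ) * (1 / (2 * (c₁ : ℝ) ^ 2 * (q : ℝ) ^ 2) * (n : ℝ) ^ 2) ≤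
      1 / (2 * (c₁ : ℝ) ^ 2 * (q : ℝ) ^ 2) * (n : ℝ) ^ (e + 3) := by
    calc (Λ.card : ℝ) * (1 / (2 * (c₁ : ℝ) ^ 2 * (q : ℝ) ^ 2) * (n : ℝ) ^ 2) ≤
        (n : ℝ) ^ (e + 1) * (1 / (2 * (c₁ : ℝ) ^ 2 * (q : ℝ) ^ 2) * (n : ℝ) ^ 2) :=
          mul_le_mul_of_nonneg_right hΛR (by positivity)
      _ = _ := by ring
  have h12 : 1 / ((c₁ : ℝ) ^ 2 * (q : ℝ) ^ 2) * (n : ℝ) ^ (e + 3) ≤ 1 / (q : ℝ) ^ 2 * Y := by
    have h13 : 1 / ((c₁ : ℝ) ^ 2 * (q : ℝ) ^ 2) * (n : ℝ) ^ (e + 3) ≤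
        1 / ((c₁ : ℝ) ^ 2 * (q : ℝ) ^ 2) * ((c₁ : ℝ) ^ 2 * Y) :=
      mul_le_mul_of_nonneg_left h8 (by positivity)
    refine h13.trans (le_of_eq ?_)
    field_simp
  have h14 : 1 / (2 * (c₁ : ℝ) ^ 2 * (q : ℝ) ^ 2) * (n : ℝ) ^ (e + 3) ≤
      ((WW F p q R₀ e ω).card : ℝ) := by
    have h15 : 1 / ((c₁ : ℝ) ^ 2 * (q : ℝ) ^ 2) * (n : ℝ) ^ (e + 3) =
        2 * (1 / (2 * (c₁ : ℝ) ^ 2 * (q : ℝ) ^ 2) * (n : ℝ) ^ (e + 3)) := by
      field_simp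
    rw [h15] at h12
    linarith
  have h16 : (n : ℝ) ^ (e + 3) ≤ 2 * (c₁ : ℝ) ^ 2 * (q : ℝ) ^ 2 * ((WW F p q R₀ e ω).card : ℝ) := by
    have h17 := mul_le_mul_of_nonneg_left h14 (by positivity : (0 : ℝ) ≤ 2 * (c₁ : ℝ) ^ 2 * (q : ℝ) ^ 2)
    have h18 : 2 * (c₁ : ℝ) ^ 2 * (q : ℝ) ^ 2 * (1 / (2 * (c₁ : ℝ) ^ 2 * (q : ℝ) ^ 2) *
        (n : ℝ) ^ (e + 3)) = (n : ℝ) ^ (e + 3) := by field_simp
    rw [h18] at h17
    exact h17
  exact_mod_cast h16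

/-- The conditions on `ρ`, `u`, `β` over a finite field. -/
structure GoodV {F : Type} [Field F] (p q R₀ : ℕ) (ρ β : F) (u : F[X]) : Prop where
  hβ : β ≠ 0
  hρ : PR R₀ ρ
  hu : GoodP R₀ u
  S : ∀ y : F, y ^ p ≠ u.eval ρ
  ex : ∃ (γ : F) (v : F[X]), v.Monic ∧ v.natDegree = u.natDegree ∧ GoodP R₀ v ∧ PR R₀ γ ∧
    (∀ y : F, y ^ p ≠ γ - ρ) ∧ (X - C ρ) * u + C (β ^ q) = (X - C γ) * v

theorem vec_count {e R₀ p s : ℕ} (hp : p.Prime) (hR : Odd R₀) (hcop : p.Coprime R₀) :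
    ∃ N₃ : ℕ, ∀ (F : Type) [Field F] [Fintype F], p ^ (s + 1) ∣ Fintype.card F - 1 →
    R₀ ∣ Fintype.card F - 1 → N₃ ≤ Fintype.card F → (∃ y : F, y ^ p = -1) →
    ∀ S : Finset (Fin (e + 1 + 3) → F), (∀ w : Fin (e + 1 + 3) → F, w (Fin.natAdd (e + 1) 2) ≠ 0 →
      GoodV p (p ^ (s + 1)) R₀ (w (Fin.natAdd (e + 1) 0)) (w (Fin.natAdd (e + 1) 1))
        (mF fun i : Fin (e + 1) => w (Fin.castAdd 3 i)) → w ∈ S) →
    Fintype.card F ^ (e + 1 + 3) ≤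
      4 * (8 * R₀ ^ 2 * (e + 1)) ^ 2 * (p ^ (s + 1)) ^ 2 * (e + 2) * S.card := by
  classical
  set q := p ^ (s + 1) with hq
  have hq0 : 0 < q := by rw [hq]; exact Nat.pow_pos hp.pos
  obtain ⟨N₂, hN₂⟩ := w_count (e := e) (s := s) hp hR hcop
  refine ⟨N₂ + 2, ?_⟩
  intro F _ _ hqF hRF hN hi S hS
  obtain ⟨ω, hω, hωN⟩ := gen_ex F
  have hpF : p ∣ Fintype.card F - 1 := (dvd_pow_self p (Nat.succ_ne_zero s)).trans hqF
  have hωp : ∀ y : F, y ^ p ≠ ω := hωN p hp hpF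
  have h1 := hN₂ F hqF hRF (by omega) ω hω
  set n := Fintype.card F with hn
  set W := WW F p q R₀ e ω with hW
  -- the properties of the elements of `W`
  have hWm : ∀ z ∈ W, (∀ y : F, y ^ p ≠ z.1.2) ∧ (PR R₀ z.2.1 ∧
      GoodP R₀ (mF z.1.1 * (X - C z.2.1) + C z.1.2)) ∧ (PR R₀ z.2.2 ∧
      GoodP R₀ (mF z.1.1 * (X - C z.2.2) + C z.1.2)) ∧ R q (z.1.2 * (z.2.1 - z.2.2)) 1 ∧
      R q ((mF z.1.1).eval z.2.1 * (z.2.1 - z.2.2) + z.1.2) ω := by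
    intro z hz
    rw [hW] at hz
    unfold WW at hz
    rw [mem_sigma, mem_lineL, mem_filter, mem_product, mem_lineT, mem_lineT] at hz
    exact ⟨hz.1, hz.2.1.1, hz.2.1.2, hz.2.2⟩
  have hβex : ∀ z : ((_ : (Fin e → F) × F) × (F × F)), ∃ β : F, z ∈ W → β ≠ 0 ∧
      z.1.2 * (z.2.1 - z.2.2) = β ^ q := by
    intro z
    by_cases hz : z ∈ W
    · obtain ⟨y, hy, h⟩ := (hWm z hz).2.2.2.1
      exact ⟨y, fun _ => ⟨hy, by rw [h, one_mul]⟩⟩
    · exact ⟨0, fun h => absurd h hz⟩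
  choose β hβ using hβex
  set u : ((_ : (Fin e → F) × F) × (F × F)) → F[X] := fun z =>
    mF z.1.1 * (X - C z.2.2) + C z.1.2 with hu
  have hdeg : ∀ (b : Fin e → F) (x κ : F), (mF b * (X - C x) + C κ).Monic ∧
      (mF b * (X - C x) + C κ).natDegree = e + 1 := by
    intro b x κ
    have h2 : (mF b * (X - C x)).Monic := (mF_monic b).mul (monic_X_sub_C x)
    have h3 : (mF b * (X - C x)).natDegree = e + 1 := by
      rw [(mF_monic b).natDegree_mul (monic_X_sub_C x), mF_natDegree, natDegree_X_sub_C]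
    refine ⟨h2.add_of_left ?_, ?_⟩
    · refine degree_C_le.trans_lt ?_
      rw [degree_eq_natDegree h2.ne_zero, h3]
      exact_mod_cast Nat.succ_pos e
    · rw [natDegree_add_C, h3]
  have humF : ∀ z, mF (fun i : Fin (e + 1) => (u z).coeff i) = u z := fun z =>
    mF_of (hdeg _ _ _).1 (hdeg _ _ _).2
  set Φ : ((_ : (Fin e → F) × F) × (F × F)) × F → (Fin (e + 1 + 3) → F) := fun z =>
    Fin.append (fun i : Fin (e + 1) => (u z.1).coeff i) ![z.1.2.1, β z.1, z.2] with hΦ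
  have v0 : ∀ z, Φ z (Fin.natAdd (e + 1) 0) = z.1.2.1 := fun z => by
    rw [hΦ]; dsimp only; rw [Fin.append_right]; rfl
  have v1 : ∀ z, Φ z (Fin.natAdd (e + 1) 1) = β z.1 := fun z => by
    rw [hΦ]; dsimp only; rw [Fin.append_right]; rfl
  have v2 : ∀ z, Φ z (Fin.natAdd (e + 1) 2) = z.2 := fun z => by
    rw [hΦ]; dsimp only; rw [Fin.append_right]; rfl
  have v3 : ∀ z, (fun i : Fin (e + 1) => Φ z (Fin.castAdd 3 i)) =
      fun i : Fin (e + 1) => (u z.1).coeff i := fun z => by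
    funext i
    rw [hΦ]; dsimp only; rw [Fin.append_left]
  -- the identity
  have hid : ∀ z ∈ W, (X - C z.2.1) * u z + C (β z ^ q) =
      (X - C z.2.2) * (mF z.1.1 * (X - C z.2.1) + C z.1.2) := by
    intro z hz
    rw [← (hβ z hz).2, hu]
    simp only [C_mul, C_sub]
    ring
  have hmem : ∀ z ∈ W ×ˢ (univ.erase (0 : F)), Φ z ∈ S := by
    rintro ⟨z, c⟩ hz
    rw [mem_product, mem_erase] at hz
    obtain ⟨hz, hc, -⟩ := hz
    obtain ⟨k1, ⟨k2, k3⟩, ⟨k4, k5⟩, k6, k7⟩ := hWm z hz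
    apply hS
    · rw [v2]; exact hc
    · rw [v0, v1, v3, humF]
      refine ⟨(hβ z hz).1, k2, k5, ?_, z.2.2, mF z.1.1 * (X - C z.2.1) + C z.1.2, (hdeg _ _ _).1,
        ?_, k3, k4, ?_, hid z hz⟩
      · intro y hy
        obtain ⟨t, ht, h2⟩ := k7
        have e1 : (u z).eval z.2.1 = (mF z.1.1).eval z.2.1 * (z.2.1 - z.2.2) + z.1.2 := by
          rw [hu]
          simp only [eval_add, eval_mul, eval_sub, eval_X, eval_C]
        rw [e1, h2] at hy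
        have e2 : t ^ q = (t ^ p ^ s) ^ p := by rw [← pow_mul, ← pow_succ]
        refine hωp (y / t ^ p ^ s) ?_
        rw [div_pow, hy, e2, mul_div_cancel_right₀ _ (pow_ne_zero _ (pow_ne_zero _ ht))]
      · rw [(hdeg _ _ _).2]; exact ((hdeg _ _ _).2).symm
      · intro y hy
        obtain ⟨y₀, hy₀⟩ := hi
        obtain ⟨hβ0, h2⟩ := hβ z hz
        have h3 : z.2.1 - z.2.2 ≠ 0 := by
          intro h0
          rw [h0, mul_zero] at h2
          exact pow_ne_zero _ hβ0 h2.symm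
        have h4 : (y₀ * y) ^ p = z.2.1 - z.2.2 := by
          rw [mul_pow, hy₀, hy]; ring
        refine k1 (β z ^ p ^ s / (y₀ * y)) ?_
        rw [div_pow, h4, ← pow_mul, ← pow_succ, ← hq, ← h2, mul_div_cancel_right₀ _ h3]
  -- the fibres
  have hfib : (W ×ˢ (univ.erase (0 : F))).card ≤ (e + 2) * S.card := by
    have h2 := Finset.card_le_mul_card_image (f := Φ) (W ×ˢ (univ.erase (0 : F))) (e + 2)
      (fun w hw => by
        obtain ⟨z₀, hz₀, hz₀'⟩ := mem_image.1 hw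
        have hz₀W : z₀.1 ∈ W := (mem_product.1 hz₀).1
        set h₀ : F[X] := (X - C z₀.1.2.1) * u z₀.1 + C (β z₀.1 ^ q) with hh₀
        have hh₀m : h₀.Monic ∧ h₀.natDegree = e + 2 := by
          rw [hh₀, hid _ hz₀W]
          refine ⟨(monic_X_sub_C _).mul (hdeg _ _ _).1, ?_⟩
          rw [(monic_X_sub_C _).natDegree_mul (hdeg _ _ _).1, natDegree_X_sub_C, (hdeg _ _ _).2]
          ring
        have h3 : ((W ×ˢ (univ.erase (0 : F))).filter fun z => Φ z = w).card ≤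
            h₀.roots.toFinset.card := by
          refine card_le_card_of_injOn (fun z => z.1.2.2) ?_ ?_
          · intro z hz
            obtain ⟨hz1, hz2⟩ := mem_filter.1 (mem_coe.1 hz)
            have hzW : z.1 ∈ W := (mem_product.1 hz1).1
            have hΦz : Φ z = Φ z₀ := hz2.trans hz₀'.symm
            have a0 : z.1.2.1 = z₀.1.2.1 := by rw [← v0, ← v0, hΦz]
            have a1 : β z.1 = β z₀.1 := by rw [← v1, ← v1, hΦz]
            have a3 : u z.1 = u z₀.1 := by rw [← humF, ← v3, hΦz, v3, humF]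
            have h4 := hid z.1 hzW
            rw [a0, a1, a3, ← hh₀] at h4
            rw [mem_coe, Multiset.mem_toFinset, mem_roots hh₀m.1.ne_zero, IsRoot.def, h4, eval_mul,
              eval_sub, eval_X, eval_C, sub_self, zero_mul]
          · intro z hz z' hz' hzz
            obtain ⟨hz1, hz2⟩ := mem_filter.1 (mem_coe.1 hz)
            obtain ⟨hz1', hz2'⟩ := mem_filter.1 (mem_coe.1 hz')
            have hΦz : Φ z = Φ z' := hz2.trans hz2'.symm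
            have a0 : z.1.2.1 = z'.1.2.1 := by rw [← v0, ← v0, hΦz]
            have a2 : z.2 = z'.2 := by rw [← v2, ← v2, hΦz]
            have a3 : u z.1 = u z'.1 := by rw [← humF, ← v3, hΦz, v3, humF]
            have hzz' : z.1.2.2 = z'.1.2.2 := hzz
            have a4 : z.1.1.2 = z'.1.1.2 := by
              have h4 := congrArg (fun f : F[X] => f.eval z.1.2.2) a3
              simp only [hu, eval_add, eval_mul, eval_sub, eval_X, eval_C, sub_self, mul_zero,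
                zero_add, hzz'] at h4
              exact h4
            have a5 : z.1.1.1 = z'.1.1.1 := by
              have h4 := a3
              simp only [hu] at h4
              rw [a4, hzz'] at h4
              have h5 := add_right_cancel h4
              exact mF_inj (mul_right_cancel₀ (X_sub_C_ne_zero _) h5)
            obtain ⟨⟨⟨b, κ⟩, ⟨ρ, γ⟩⟩, c⟩ := z
            obtain ⟨⟨⟨b', κ'⟩, ⟨ρ', γ'⟩⟩, c'⟩ := z'
            simp only at a0 a2 a4 a5 hzz'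
            subst a0 a2 a4 a5 hzz'
            rfl
        refine h3.trans ((Multiset.toFinset_card_le _).trans ((card_roots' _).trans ?_))
        rw [hh₀m.2])
    refine h2.trans (Nat.mul_le_mul le_rfl (card_le_card ?_))
    intro w hw
    obtain ⟨z, hz, rfl⟩ := mem_image.1 hw
    exact hmem z hz
  rw [card_product, card_erase_of_mem (mem_univ _), card_univ, ← hn] at hfib
  have h4 : n ≤ 2 * (n - 1) := by omega
  calc n ^ (e + 1 + 3) = n * n ^ (e + 3) := by ring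
    _ ≤ (2 * (n - 1)) * (2 * (8 * R₀ ^ 2 * (e + 1)) ^ 2 * q ^ 2 * W.card) := Nat.mul_le_mul h4 h1
    _ = 4 * (8 * R₀ ^ 2 * (e + 1)) ^ 2 * q ^ 2 * (W.card * (n - 1)) := by ring
    _ ≤ 4 * (8 * R₀ ^ 2 * (e + 1)) ^ 2 * q ^ 2 * ((e + 2) * S.card) := Nat.mul_le_mul le_rfl hfib
    _ = _ := by ring

end Pool.Agent.Y160.T4
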