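import Pool.Agent.Y160.T4.Fam
import Pool.Agent.Y160.T4.Vec
import Pool.Agent.Y160.T3.Pt
import Pool.Agent.Y160.SL.Gen2

/-!
# The conclusions for vectors of integers with good residues modulo `P`
-/

set_option autoImplicit false
set_option linter.all false

open Polynomial

namespace Pool.Agent.Y160.T4

open Pool.Agent.TH115.GD (IsTower)
open Pool.Agent.Y160.SL (linU linE linG linH linSurf LinConcl towSurf IrrMod SepMod GenConcl RedConcl
  overField)
open Pool.Agent.Y160.T2 (vs res to_int prim_red embed_ex)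
open Pool.Agent.Y160.T3 (GoodP mF mF_of mF_monic mF_natDegree irr_expand towSurf_map)

section lin

variable {F : Type} [Field F]

theorem irr_lin {R M : ℕ} {ρ : F} (h : PR R ρ) (hM : Odd M)
    (hMR : ∀ N : ℕ, N.Prime → N ∣ M → N ∣ R) : Irreducible (expand F M (X - C ρ)) := by
  refine irr_expand (monic_X_sub_C ρ) (irreducible_X_sub_C ρ) hM fun N hN hNM y hy => ?_
  have h1 : (X - C ρ : F[X]).coeff 0 = -ρ := by
    rw [coeff_sub, coeff_X_zero, coeff_C_zero, zero_sub]
  rw [h1] at hy
  have hNodd : Odd N := hM.of_dvd_nat hNM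
  refine h.2 N hN (hMR N hN hNM) (-y) ?_
  rw [hNodd.neg_pow, hy, neg_neg]

/-- The conditions over the finite field. -/
theorem pt_fin {p q R M : ℕ} (hp : p.Prime) {ρ β : F} {u : F[X]} (hu : u.Monic)
    (h : GoodV p q R ρ β u) (hneg : ∃ y : F, y ^ p = -1) (hM : Odd M)
    (hMR : ∀ N : ℕ, N.Prime → N ∣ M → N ∣ R) : ∃ (γ : F) (v : F[X]), PtD p q M ρ γ β u v := by
  obtain ⟨γ, v, hv, hd, hvg, hγ, hT, hid⟩ := h.ex
  refine ⟨γ, v, ⟨hu, hv, hd, hid, irr_lin h.hρ hM hMR, ?_, irr_lin hγ hM hMR, ?_, h.hβ, hneg, h.S,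
    hT⟩⟩
  · exact irr_expand hu h.hu.1 hM fun N hN hNM => h.hu.2 N hN (hMR N hN hNM)
  · exact irr_expand hv hvg.1 hM fun N hN hNM => hvg.2 N hN (hMR N hN hNM)

end lin

section maps

variable {A B : Type} [CommRing A] [CommRing B] (f : A →+* B) {n : ℕ} (v : Fin (n + 3) → A)

theorem linU_eq : linU n v = mF (fun i : Fin n => v (Fin.castAdd 3 i)) := rfl

theorem linU_map : (linU n v).map f = linU n (fun i => f (v i)) := by
  unfold linU
  rw [Polynomial.map_add, Polynomial.map_pow, Polynomial.map_X, Polynomial.map_sum]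
  congr 1
  refine Finset.sum_congr rfl fun i _ => ?_
  rw [Polynomial.map_mul, Polynomial.map_C, Polynomial.map_pow, Polynomial.map_X]

theorem linG_map : (linG n v).map f = linG n (fun i => f (v i)) := by
  unfold linG
  rw [Polynomial.map_mul, linU_map, Polynomial.map_sub, Polynomial.map_X, Polynomial.map_C]
  rfl

theorem linH_map (q : ℕ) : (linH q n v).map f = linH q n (fun i => f (v i)) := by
  unfold linH
  rw [Polynomial.map_add, linG_map, Polynomial.map_C, map_pow]
  rfl

theorem linU_monic [Nontrivial A] : (linU n v).Monic := mF_monic _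

theorem linU_natDegree [Nontrivial A] : (linU n v).natDegree = n := mF_natDegree _

theorem linG_monic [Nontrivial A] : (linG n v).Monic := (monic_X_sub_C _).mul (linU_monic v)

theorem linG_natDegree [Nontrivial A] : (linG n v).natDegree = n + 1 := by
  unfold linG
  rw [(monic_X_sub_C _).natDegree_mul (linU_monic v), natDegree_X_sub_C, linU_natDegree]
  ring

theorem linH_monic [Nontrivial A] (q : ℕ) : (linH q n v).Monic := by
  refine (linG_monic v).add_of_left ?_
  refine degree_C_le.trans_lt ?_
  rw [degree_eq_natDegree (linG_monic v).ne_zero, linG_natDegree]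
  exact_mod_cast Nat.succ_pos n

theorem linH_natDegree [Nontrivial A] (q : ℕ) : (linH q n v).natDegree = n + 1 := by
  unfold linH
  rw [natDegree_add_C, linG_natDegree]

end maps

section prime

variable {P : ℕ} [hP : Fact P.Prime] {E : Type} [Field E] (σ : E →+* ℚ_[P])

theorem irr_upA {h : (vs σ)[X]} (hm : h.Monic) (hirr : Irreducible (h.map (res σ))) :
    Irreducible (h.map (algebraMap (vs σ) E)) := by
  have h2 : Irreducible h := hm.irreducible_of_irreducible_map (res σ) _ hirr
  exact (hm.irreducible_iff_irreducible_map_fraction_map (K := E)).1 h2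

theorem pow_red {p : ℕ} (hp : 0 < p) {y : E} {a : vs σ} (h : y ^ p = (a : E)) :
    ∃ z : ZMod P, z ^ p = res σ a := by
  have h1 : IsIntegral (vs σ) y := IsIntegral.of_pow hp (by rw [h]; exact isIntegral_algebraMap)
  obtain ⟨y', hy'⟩ := IsIntegrallyClosed.isIntegral_iff.1 h1
  refine ⟨res σ y', ?_⟩
  rw [← map_pow]
  congr 1
  apply Subtype.ext
  rw [SubmonoidClass.coe_pow]
  rw [← h, ← hy']
  rfl

include σ in
/-- The conditions over the field `E`. -/
theorem pt_E {p q R M n : ℕ} (hp : p.Prime) (hn : 2 ≤ n) {v : Fin (n + 3) → ℤ}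
    (hg : GoodV p q R (linE n (fun i => (v i : ZMod P)) 0) (linE n (fun i => (v i : ZMod P)) 1)
      (linU n (fun i => (v i : ZMod P)))) {η x : E} (hη : η ^ p = -1)
    (hx : aeval x (linH q n v) = 0) (hM : Odd M) (hMR : ∀ N : ℕ, N.Prime → N ∣ M → N ∣ R) :
    ∃ w : E[X], PtD p q M ((linE n v 0 : ℤ) : E) x ((linE n v 1 : ℤ) : E)
      (linU n (fun i => (v i : E))) w := by
  have hM0 : 0 < M := hM.pos
  obtain ⟨γ, w₀, hw₀, hd₀, hw₀g, hγ, hT, hid⟩ := hg.ex
  have hd₀' : w₀.natDegree = n := by rw [hd₀, linU_natDegree]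
  have hid' : linH q n (fun i => (v i : ZMod P)) = (X - C γ) * w₀ := hid
  -- the zero is integral
  have hxi : IsIntegral (vs σ) x := (show IsIntegral ℤ x from ⟨linH q n v, linH_monic v q, hx⟩).tower_top
  obtain ⟨x', hx'⟩ := IsIntegrallyClosed.isIntegral_iff.1 hxi
  have hx'E : (x' : E) = x := hx'
  set hA : (vs σ)[X] := linH q n (fun i => (v i : vs σ)) with hhA
  have hAE : hA.map (algebraMap (vs σ) E) = linH q n (fun i => (v i : E)) := by
    rw [hhA, linH_map]
    exact congrArg (linH q n) (funext fun i => map_intCast _ _)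
  have hAP : hA.map (res σ) = linH q n (fun i => (v i : ZMod P)) := by
    rw [hhA, linH_map]
    exact congrArg (linH q n) (funext fun i => map_intCast _ _)
  have hxE : (linH q n (fun i => (v i : E))).eval x = 0 := by
    have h1 : (linH q n v).map (Int.castRingHom E) = linH q n (fun i => (v i : E)) := linH_map _ v q
    rw [← h1, eval_map]
    have h2 : eval₂ (algebraMap ℤ E) x (linH q n v) = 0 := hx
    rwa [algebraMap_int_eq] at h2
  have hroot : hA.IsRoot x' := by
    rw [IsRoot.def]
    apply IsFractionRing.injective (vs σ) E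
    rw [map_zero, ← eval_map_apply, hAE, hx']
    exact hxE
  obtain ⟨w, hw⟩ := dvd_iff_isRoot.2 hroot
  have hwm : w.Monic := (monic_X_sub_C x').of_mul_monic_left (by rw [← hw]; exact linH_monic _ q)
  have hwd : w.natDegree = n := by
    have h1 := congrArg natDegree hw
    rw [hhA, linH_natDegree, (monic_X_sub_C x').natDegree_mul hwm, natDegree_X_sub_C] at h1
    omega
  -- reduction
  have hred : (X - C (res σ x')) * w.map (res σ) = (X - C γ) * w₀ := by
    rw [← hid', ← hAP, hw, Polynomial.map_mul, Polynomial.map_sub, Polynomial.map_X,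
      Polynomial.map_C]
  have hγx : res σ x' = γ := by
    have h1 := congrArg (fun f : (ZMod P)[X] => f.eval (res σ x')) hred
    simp only [eval_mul, eval_sub, eval_X, eval_C, sub_self, zero_mul] at h1
    rcases mul_eq_zero.1 h1.symm with h2 | h2
    · exact sub_eq_zero.1 h2
    · exfalso
      have h3 := degree_eq_one_of_irreducible_of_root hw₀g.1 h2
      rw [degree_eq_natDegree hw₀.ne_zero, hd₀'] at h3
      have h4 : n = 1 := by exact_mod_cast h3
      omega
  have hwred : w.map (res σ) = w₀ := by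
    rw [hγx] at hred
    exact mul_left_cancel₀ (X_sub_C_ne_zero γ) hred
  -- irreducibility
  have k1 : ∀ f : (vs σ)[X], f.Monic → Irreducible (expand (ZMod P) M (f.map (res σ))) →
      Irreducible (expand E M (f.map (algebraMap (vs σ) E))) := by
    intro f hf hirr
    rw [← map_expand] at hirr ⊢
    exact irr_upA σ (hf.expand hM0) hirr
  have hint : ∀ a : ℤ, res σ ((a : ℤ) : vs σ) = (a : ZMod P) := fun a => map_intCast _ a
  have hintE : ∀ a : ℤ, (((a : ℤ) : vs σ) : E) = (a : E) := fun a =>
    map_intCast (algebraMap (vs σ) E) a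
  set ρ : ℤ := linE n v 0 with hρ
  set β : ℤ := linE n v 1 with hβ
  have hρP : linE n (fun i => (v i : ZMod P)) 0 = (ρ : ZMod P) := rfl
  have hβP : linE n (fun i => (v i : ZMod P)) 1 = (β : ZMod P) := rfl
  have huA : (linU n (fun i => (v i : vs σ))).map (algebraMap (vs σ) E) =
      linU n (fun i => (v i : E)) := by
    rw [linU_map]
    exact congrArg (linU n) (funext fun i => map_intCast _ _)
  have huP : (linU n (fun i => (v i : vs σ))).map (res σ) = linU n (fun i => (v i : ZMod P)) := by
    rw [linU_map]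
    exact congrArg (linU n) (funext fun i => map_intCast _ _)
  refine ⟨w.map (algebraMap (vs σ) E), ?_⟩
  refine
    { um := linU_monic _
      vm := hwm.map _
      deg := by rw [hwm.natDegree_map, hwd, linU_natDegree]
      id := ?_
      i₁ := ?_
      i₂ := ?_
      j₁ := ?_
      j₂ := ?_
      hβ := ?_
      neg := ⟨η, hη⟩
      S := ?_
      T := ?_ }
  · have h1 := hAE
    rw [hw, Polynomial.map_mul, Polynomial.map_sub, Polynomial.map_X, Polynomial.map_C, hx'] at h1
    rw [h1]
    rfl
  · have h1 := k1 (X - C ((ρ : ℤ) : vs σ)) (monic_X_sub_C _) (by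
      rw [Polynomial.map_sub, Polynomial.map_X, Polynomial.map_C, hint]
      exact irr_lin hg.hρ hM hMR)
    rw [Polynomial.map_sub, Polynomial.map_X, Polynomial.map_C] at h1
    rwa [show algebraMap (vs σ) E ((ρ : ℤ) : vs σ) = (ρ : E) from hintE ρ] at h1
  · have h1 := k1 (linU n (fun i => (v i : vs σ))) (linU_monic _) (by
      rw [huP]
      exact irr_expand (linU_monic _) hg.hu.1 hM fun N hN hNM => hg.hu.2 N hN (hMR N hN hNM))
    rwa [huA] at h1
  · have h1 := k1 (X - C x') (monic_X_sub_C _) (by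
      rw [Polynomial.map_sub, Polynomial.map_X, Polynomial.map_C, hγx]
      exact irr_lin hγ hM hMR)
    rwa [Polynomial.map_sub, Polynomial.map_X, Polynomial.map_C, hx'] at h1
  · exact k1 w hwm (by
      rw [hwred]
      exact irr_expand hw₀ hw₀g.1 hM fun N hN hNM => hw₀g.2 N hN (hMR N hN hNM))
  · intro h0
    have h1 : β = 0 ∨ (β : E) ≠ 0 := by
      rcases eq_or_ne (β : E) 0 with h | h
      · left
        have h2 : σ (β : E) = 0 := by rw [h, map_zero]
        rw [map_intCast] at h2
        exact_mod_cast h2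
      · exact Or.inr h
    rcases h1 with h1 | h1
    · apply hg.hβ
      rw [hβP, h1, Int.cast_zero]
    · exact h1 h0
  · intro y hy
    have h1 : (linU n (fun i => (v i : E))).eval ((ρ : ℤ) : E) =
        (((linU n (fun i => (v i : vs σ))).eval ((ρ : ℤ) : vs σ) : vs σ) : E) := by
      rw [← huA]
      have := eval_map_apply (algebraMap (vs σ) E) (p := linU n (fun i => (v i : vs σ))) ((ρ : ℤ) : vs σ)
      rw [show algebraMap (vs σ) E ((ρ : ℤ) : vs σ) = (ρ : E) from hintE ρ] at this
      exact this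
    rw [h1] at hy
    obtain ⟨z, hz⟩ := pow_red σ hp.pos hy
    refine hg.S z ?_
    rw [hz, ← eval_map_apply, huP, hint]
    rfl
  · intro y hy
    have h1 : x - ((ρ : ℤ) : E) = ((x' - ((ρ : ℤ) : vs σ) : vs σ) : E) := by
      rw [← hx'E, ← hintE]
      rfl
    rw [h1] at hy
    obtain ⟨z, hz⟩ := pow_red σ hp.pos hy
    refine hT z ?_
    rw [hz, map_sub, hγx, hint]
    rfl

end prime

end Pool.Agent.Y160.T4
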