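import Pool.Agent.Y160.T4.Cls
import Pool.Agent.Y160.T4.Nrm
import Pool.Agent.Y160.T3.Irr

/-!
# The conditions for `g = g₁ g₂` and `g + β ^ q = h₁ h₂`
-/

set_option autoImplicit false
set_option linter.all false

open Polynomial

namespace Pool.Agent.Y160.T4

open Pool.Agent.Y160.FT
open Pool.Agent.Y160.T3 (split_list)
open Pool.Agent.Y691.FT2 (exists_exps triv_of_cong)

variable {E : Type} [Field E]

/-- The local condition at a prime factor. -/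
theorem local_two {P Q : E[X]} (hP : Irreducible P) (hPQ : ¬ P ∣ Q) {ℓ e₁ e₂ e' : ℕ} {c a : E}
    (hc : c ≠ 0) (ha : a ≠ 0) {w : E[X]} (hw : ¬ P ∣ w)
    (h : P ^ (e' + 1) ∣ C c * (C a * (P ^ e₁ * Q ^ e₂)) - (P * Q) ^ e' * w ^ ℓ) :
    P ∣ C (c * a) * Q ^ e₂ - Q ^ e₁ * w ^ ℓ := by
  have hprime : Prime P := hP.prime
  have hQn : ∀ n, ¬ P ∣ Q ^ n := fun n hd => hPQ (hprime.dvd_of_dvd_pow hd)
  have hcad : ¬ P ∣ C (c * a) * Q ^ e₂ := by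
    intro hd
    rcases hprime.dvd_or_dvd hd with h1 | h1
    · exact hprime.not_unit (isUnit_of_dvd_unit h1
        (isUnit_C.2 (isUnit_iff_ne_zero.2 (mul_ne_zero hc ha))))
    · exact hQn _ h1
  have hwd : ∀ n, ¬ P ∣ Q ^ n * w ^ ℓ := by
    intro n hd
    rcases hprime.dvd_or_dvd hd with h1 | h1
    · exact hQn _ h1
    · exact hw (hprime.dvd_of_dvd_pow h1)
  have hPn : ∀ n, P ^ n ≠ 0 := fun n => pow_ne_zero _ hprime.ne_zero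
  have heq : e₁ = e' := by
    rcases lt_trichotomy e₁ e' with hlt | heq | hgt
    · exfalso
      have h1 : P ^ (e₁ + 1) ∣ C c * (C a * (P ^ e₁ * Q ^ e₂)) - (P * Q) ^ e' * w ^ ℓ :=
        (pow_dvd_pow _ (by omega)).trans h
      have h2 : P ^ (e₁ + 1) ∣ (P * Q) ^ e' * w ^ ℓ := by
        rw [mul_pow, mul_assoc]
        exact Dvd.dvd.mul_right (pow_dvd_pow _ (by omega)) _
      have h3 := dvd_add h1 h2
      rw [sub_add_cancel] at h3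
      have h4 : P ^ e₁ * P ∣ P ^ e₁ * (C (c * a) * Q ^ e₂) := by
        rw [← pow_succ]
        have h5 : P ^ e₁ * (C (c * a) * Q ^ e₂) = C c * (C a * (P ^ e₁ * Q ^ e₂)) := by
          rw [C_mul]; ring
        rw [h5]; exact h3
      exact hcad ((mul_dvd_mul_iff_left (hPn _)).1 h4)
    · exact heq
    · exfalso
      have h2 : P ^ (e' + 1) ∣ C c * (C a * (P ^ e₁ * Q ^ e₂)) := by
        have h5 : C c * (C a * (P ^ e₁ * Q ^ e₂)) = P ^ e₁ * (C (c * a) * Q ^ e₂) := by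
          rw [C_mul]; ring
        rw [h5]
        exact Dvd.dvd.mul_right (pow_dvd_pow _ (by omega)) _
      have h3 := dvd_sub h2 h
      rw [sub_sub_cancel] at h3
      have h4 : P ^ e' * P ∣ P ^ e' * (Q ^ e' * w ^ ℓ) := by
        rw [← pow_succ]
        have h5 : P ^ e' * (Q ^ e' * w ^ ℓ) = (P * Q) ^ e' * w ^ ℓ := by rw [mul_pow]; ring
        rw [h5]; exact h3
      exact hwd _ ((mul_dvd_mul_iff_left (hPn _)).1 h4)
  subst heq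
  have h4 : P ^ e₁ * P ∣ P ^ e₁ * (C (c * a) * Q ^ e₂ - Q ^ e₁ * w ^ ℓ) := by
    rw [← pow_succ]
    have h5 : P ^ e₁ * (C (c * a) * Q ^ e₂ - Q ^ e₁ * w ^ ℓ) =
      C c * (C a * (P ^ e₁ * Q ^ e₂)) - (P * Q) ^ e₁ * w ^ ℓ := by rw [mul_pow, C_mul]; ring
    rw [h5]; exact h
  exact (mul_dvd_mul_iff_left (hPn _)).1 h4

theorem cl_sign {p : ℕ} (hi : cl p (-1 : E) = 1) (n : ℕ) {x : E} (hx : x ≠ 0) :
    cl p ((-1) ^ n * x) = cl p x := by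
  rw [cl_mul p (pow_ne_zero _ (neg_ne_zero.2 one_ne_zero)) hx, cl_pow p (neg_ne_zero.2 one_ne_zero),
    hi, one_pow, one_mul]

theorem cls_of_dvd {f : E[X]} (hf : f.Monic) {A B w : E[X]} {p : ℕ} (hp : 0 < p) (hA : Nn f A ≠ 0)
    (hB : Nn f B ≠ 0) (h : f ∣ A - B * w ^ p) : cl p (Nn f A) = cl p (Nn f B) := by
  have h1 := nn_congr hf h
  rw [nn_mul hf, nn_pow hf] at h1
  have hw : Nn f w ≠ 0 := by
    intro h0
    rw [h0, zero_pow hp.ne', mul_zero] at h1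
    exact hA h1
  rw [h1, cl_mul p hB (pow_ne_zero _ hw), cl_ppow p hw, mul_one]

/-- The data. -/
structure TwoD (p q M d : ℕ) (G₁ G₂ H₁ H₂ : E[X]) (β : E) : Prop where
  m₁ : G₁.Monic
  m₂ : G₂.Monic
  n₁ : H₁.Monic
  n₂ : H₂.Monic
  i₁ : Irreducible G₁
  i₂ : Irreducible G₂
  j₁ : Irreducible H₁
  j₂ : Irreducible H₂
  d₁ : G₁.natDegree = M
  d₂ : G₂.natDegree = d * M
  e₁ : H₁.natDegree = M
  e₂ : H₂.natDegree = d * M
  id : G₁ * G₂ + C (β ^ q) = H₁ * H₂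
  hβ : β ≠ 0
  hi : cl p (-1 : E) = 1
  rne : cl p (Nn G₁ G₂) ≠ 1
  tne : cl p (Nn H₁ G₁) ≠ 1
  r0 : Nn G₁ G₂ ≠ 0
  t0 : Nn H₁ G₁ ≠ 0

namespace TwoD

variable {p q M d : ℕ} {G₁ G₂ H₁ H₂ : E[X]} {β : E} (D : TwoD p q M d G₁ G₂ H₁ H₂ β)
include D

theorem nb (hqs : ∃ s, q = p ^ (s + 1)) : cl p (-β ^ q) = 1 ∧ cl p (β ^ q) = 1 := by
  obtain ⟨s, rfl⟩ := hqs
  have h1 : cl p (β ^ p ^ (s + 1)) = 1 := by
    rw [pow_succ, pow_mul]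
    exact cl_ppow p (pow_ne_zero _ D.hβ)
  refine ⟨?_, h1⟩
  have h2 := cl_sign D.hi 1 (pow_ne_zero (p ^ (s + 1)) D.hβ)
  rw [pow_one, neg_one_mul, h1] at h2
  exact h2

theorem hH (f : E[X]) (hf : f.Monic) (h : f ∣ H₁ * H₂) :
    Nn f (G₁ * G₂) = (-β ^ q) ^ f.natDegree := by
  rw [← nn_C hf]
  refine nn_congr hf ?_
  have : G₁ * G₂ - C (-β ^ q) = H₁ * H₂ := by rw [C_neg, sub_neg_eq_add, D.id]
  rw [this]; exact h

theorem hG (f : E[X]) (hf : f.Monic) (h : f ∣ G₁ * G₂) :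
    Nn f (H₁ * H₂) = (β ^ q) ^ f.natDegree := by
  rw [← nn_C hf]
  refine nn_congr hf ?_
  have : H₁ * H₂ - C (β ^ q) = G₁ * G₂ := by rw [← D.id, add_sub_cancel_right]
  rw [this]; exact h

theorem b0 : -β ^ q ≠ 0 ∧ β ^ q ≠ 0 := ⟨neg_ne_zero.2 (pow_ne_zero _ D.hβ), pow_ne_zero _ D.hβ⟩

/-- The norms of `G₁`, `G₂` modulo `H₁`, `H₂` are not zero. -/
theorem ne (f : E[X]) (hf : f.Monic) (h : f ∣ H₁ * H₂) : Nn f G₁ ≠ 0 ∧ Nn f G₂ ≠ 0 := by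
  have h1 := D.hH f hf h
  rw [nn_mul hf] at h1
  have h2 : (-β ^ q) ^ f.natDegree ≠ 0 := pow_ne_zero _ D.b0.1
  rw [← h1] at h2
  exact ⟨left_ne_zero_of_mul h2, right_ne_zero_of_mul h2⟩

theorem ne' (f : E[X]) (hf : f.Monic) (h : f ∣ G₁ * G₂) : Nn f H₁ ≠ 0 ∧ Nn f H₂ ≠ 0 := by
  have h1 := D.hG f hf h
  rw [nn_mul hf] at h1
  have h2 : (β ^ q) ^ f.natDegree ≠ 0 := pow_ne_zero _ D.b0.2
  rw [← h1] at h2
  exact ⟨left_ne_zero_of_mul h2, right_ne_zero_of_mul h2⟩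

theorem cH (hqs : ∃ s, q = p ^ (s + 1)) (f : E[X]) (hf : f.Monic) (h : f ∣ H₁ * H₂) :
    cl p (Nn f G₁) * cl p (Nn f G₂) = 1 := by
  obtain ⟨h1, h2⟩ := D.ne f hf h
  rw [← cl_mul p h1 h2, ← nn_mul hf, D.hH f hf h, cl_pow p D.b0.1, (D.nb hqs).1, one_pow]

theorem cG (hqs : ∃ s, q = p ^ (s + 1)) (f : E[X]) (hf : f.Monic) (h : f ∣ G₁ * G₂) :
    cl p (Nn f H₁) * cl p (Nn f H₂) = 1 := by
  obtain ⟨h1, h2⟩ := D.ne' f hf h
  rw [← cl_mul p h1 h2, ← nn_mul hf, D.hG f hf h, cl_pow p D.b0.2, (D.nb hqs).2, one_pow]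

theorem swap {f g : E[X]} (h : Nn g f ≠ 0) : cl p (Nn f g) = cl p (Nn g f) := by
  rw [nn_symm f g, cl_sign D.hi _ h]

theorem cH' (hqs : ∃ s, q = p ^ (s + 1)) (f : E[X]) (hf : f.Monic) (h : f ∣ G₁ * G₂) :
    cl p (Nn H₁ f) * cl p (Nn H₂ f) = 1 := by
  obtain ⟨h1, h2⟩ := D.ne' f hf h
  rw [D.swap h1, D.swap h2]
  exact D.cG hqs f hf h

theorem cG' (hqs : ∃ s, q = p ^ (s + 1)) (f : E[X]) (hf : f.Monic) (h : f ∣ H₁ * H₂) :
    cl p (Nn G₁ f) * cl p (Nn G₂ f) = 1 := by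
  obtain ⟨h1, h2⟩ := D.ne f hf h
  rw [D.swap h1, D.swap h2]
  exact D.cH hqs f hf h

end TwoD

theorem exps_two {P Q : E[X]} (hP : Irreducible P) (hQ : Irreducible Q) {A : E[X]}
    (h : VV (P * Q) A) : ∃ (a : E) (e₁ e₂ : ℕ), a ≠ 0 ∧ A = C a * (P ^ e₁ * Q ^ e₂) := by
  obtain ⟨n, hn⟩ := h
  obtain ⟨a, e, ha, he⟩ := exists_exps ![P, Q] (fun i => by fin_cases i <;> assumption) A n (by
    rw [Fin.prod_univ_two]; exact hn)
  refine ⟨a, e 0, e 1, ha, ?_⟩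
  rw [he, Fin.prod_univ_two]
  rfl

theorem triv_two {P Q : E[X]} {a : E} (ha : a ≠ 0) {ℓ e₁ e₂ : ℕ} (h : e₁ ≡ e₂ [MOD ℓ]) :
    Triv ℓ (P * Q) (C a * (P ^ e₁ * Q ^ e₂)) := by
  obtain ⟨c, j, w, hc, hcj⟩ := triv_of_cong ![P, Q] ![e₁, e₂] a ha ℓ (by
    intro i j
    fin_cases i <;> fin_cases j <;> first | rfl | exact h | exact h.symm)
  rw [Fin.prod_univ_two, Fin.prod_univ_two] at hcj
  exact ⟨c, j, w, hc, hcj⟩

theorem ndvd_of_deg {P Q : E[X]} (hP : Irreducible P) (hQ : Irreducible Q) (hPm : P.Monic)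
    (hQm : Q.Monic) (h : P.natDegree ≠ Q.natDegree) : ¬ P ∣ Q := by
  intro hd
  have h1 := hP.associated_of_dvd hQ hd
  exact h (congrArg natDegree (eq_of_monic_of_associated hPm hQm h1))

end Pool.Agent.Y160.T4
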